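import Pool.Agent.MP_8b86ce_co.H45.Jack

set_option autoImplicit false

namespace Pool.Agent.MP_8b86ce_co.H45

open Equiv Finset MvPolynomial

section Span

variable {V : Type*} [AddCommGroup V] [Module ℚ V]

/-- combinations of elements of `S` with coefficients in the subsemiring `K` -/
inductive InSpan (K : Subsemiring ℚ) (S : Set V) : V → Prop
  | base {v : V} : v ∈ S → InSpan K S v
  | zero : InSpan K S 0
  | add {v w : V} : InSpan K S v → InSpan K S w → InSpan K S (v + w)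
  | smul {c : ℚ} {v : V} : c ∈ K → InSpan K S v → InSpan K S (c • v)

lemma InSpan.sum {K : Subsemiring ℚ} {S : Set V} {ι : Type*} (s : Finset ι) (f : ι → V)
    (h : ∀ i ∈ s, InSpan K S (f i)) : InSpan K S (∑ i ∈ s, f i) := by
  classical
  induction s using Finset.induction_on with
  | empty => simpa using InSpan.zero
  | insert a s ha ih =>
    rw [sum_insert ha]
    exact (h a (mem_insert_self _ _)).add (ih fun i hi => h i (mem_insert_of_mem hi))

lemma InSpan.map {W : Type*} [AddCommGroup W] [Module ℚ W] {K : Subsemiring ℚ} {S : Set V}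
    {T : Set W} (L : V →ₗ[ℚ] W) (hL : ∀ v ∈ S, InSpan K T (L v)) {v : V} (h : InSpan K S v) :
    InSpan K T (L v) := by
  induction h with
  | base h => exact hL _ h
  | zero => simpa using InSpan.zero
  | add _ _ h1 h2 => rw [map_add]; exact h1.add h2
  | smul hc _ h => rw [map_smul]; exact h.smul hc

/-- the nonnegative rationals -/
def NN : Subsemiring ℚ := Subsemiring.nonneg ℚ

lemma mem_NN {c : ℚ} : c ∈ NN ↔ 0 ≤ c := Iff.rfl

lemma InSpan.of_smul {S : Set V} {c : ℚ} (hc : 0 < c) {v : V} (h : InSpan NN S (c • v)) :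
    InSpan NN S v := by
  have := h.smul (c := c⁻¹) (mem_NN.2 (inv_nonneg.2 hc.le))
  rwa [smul_smul, inv_mul_cancel₀ hc.ne', one_smul] at this

end Span

variable {n : ℕ}

/-- the cone spanned by the nonsymmetric Jack polynomials at parameter zero -/
def InC (f : PP n) : Prop := InSpan NN (Set.range EE) f

/-- the raising operator as a linear map -/
noncomputable def PhiL : PP n →ₗ[ℚ] PP n where
  toFun := Phi
  map_add' := Phi_add
  map_smul' := Phi_smul

lemma InC.phi {f : PP n} (h : InC f) : InC (Phi f) := by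
  refine InSpan.map (PhiL (n := n)) ?_ h
  rintro _ ⟨η, rfl⟩
  exact InSpan.base ⟨shift η, EE_shift η⟩

/-- stabilizer of a block vector -/
def Stab (c : Fin (n + 1) → ℕ) : Finset (Perm (Fin (n + 1))) := univ.filter fun σ => c ∘ σ = c

lemma mem_Stab {c : Fin (n + 1) → ℕ} {σ : Perm (Fin (n + 1))} : σ ∈ Stab c ↔ c ∘ σ = c := by
  simp [Stab]

lemma one_mem_Stab (c : Fin (n + 1) → ℕ) : 1 ∈ Stab c := by
  rw [mem_Stab]; rfl

lemma mul_mem_Stab {c : Fin (n + 1) → ℕ} {σ τ : Perm (Fin (n + 1))} (hσ : σ ∈ Stab c)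
    (hτ : τ ∈ Stab c) : σ * τ ∈ Stab c := by
  rw [mem_Stab] at *
  rw [Perm.coe_mul, ← Function.comp_assoc, hσ, hτ]

lemma inv_mem_Stab {c : Fin (n + 1) → ℕ} {σ : Perm (Fin (n + 1))} (hσ : σ ∈ Stab c) :
    σ⁻¹ ∈ Stab c := by
  rw [mem_Stab] at *
  funext j
  have := congrFun hσ (σ⁻¹ j)
  simpa using this.symm

lemma swap_mem_Stab {c : Fin (n + 1) → ℕ} {a b : Fin (n + 1)} (h : c a = c b) :
    swap a b ∈ Stab c := by
  rw [mem_Stab]
  funext j
  simp only [Function.comp, swap_apply_def]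
  split_ifs with h1 h2
  · rw [h1, h]
  · rw [h2, h]
  · rfl

lemma sum_Stab_mul {M : Type*} [AddCommMonoid M] {c : Fin (n + 1) → ℕ} {τ : Perm (Fin (n + 1))}
    (hτ : τ ∈ Stab c) (g : Perm (Fin (n + 1)) → M) :
    ∑ σ ∈ Stab c, g (σ * τ) = ∑ σ ∈ Stab c, g σ := by
  apply sum_bij' (fun σ _ => σ * τ) (fun σ _ => σ * τ⁻¹)
  · intro σ hσ; exact mul_mem_Stab hσ hτ
  · intro σ hσ; exact mul_mem_Stab hσ (inv_mem_Stab hτ)
  · intro σ _; simp
  · intro σ _; simp
  · intro σ _; rfl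

lemma sum_Stab_mul_left {M : Type*} [AddCommMonoid M] {c : Fin (n + 1) → ℕ}
    {τ : Perm (Fin (n + 1))} (hτ : τ ∈ Stab c) (g : Perm (Fin (n + 1)) → M) :
    ∑ σ ∈ Stab c, g (τ * σ) = ∑ σ ∈ Stab c, g σ := by
  apply sum_bij' (fun σ _ => τ * σ) (fun σ _ => τ⁻¹ * σ)
  · intro σ hσ; exact mul_mem_Stab hτ hσ
  · intro σ hσ; exact mul_mem_Stab (inv_mem_Stab hτ) hσ
  · intro σ _; simp
  · intro σ _; simp
  · intro σ _; rfl

lemma card_Stab_pos (c : Fin (n + 1) → ℕ) : (0 : ℚ) < (Stab c).card := by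
  exact_mod_cast card_pos.2 ⟨1, one_mem_Stab c⟩

/-- the stabilizer of a monotone vector is generated by adjacent exchanges -/
lemma Stab_induction {c : Fin (n + 1) → ℕ} (hc : Monotone c) {P : Perm (Fin (n + 1)) → Prop}
    (h1 : P 1) (hs : ∀ σ ∈ Stab c, ∀ a b, adj a b → c a = c b → P σ → P (σ * swap a b))
    (σ : Perm (Fin (n + 1))) (hσ : σ ∈ Stab c) : P σ := by
  induction hw : wt (fun i => (σ i : ℕ)) using Nat.strong_induction_on generalizing σ with
  | _ w ih =>
    by_cases hd : ∃ a b, adj a b ∧ σ b < σ a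
    · obtain ⟨a, b, hab, hlt⟩ := hd
      have hcab : c a = c b := by
        have e := mem_Stab.1 hσ
        have e1 := congrFun e a
        have e2 := congrFun e b
        have e3 := hc hlt.le
        have e4 := hc hab.lt.le
        simp only [Function.comp] at e1 e2
        omega
      have hσ' : σ * swap a b ∈ Stab c := mul_mem_Stab hσ (swap_mem_Stab hcab)
      have hl : (fun i => ((σ * swap a b) i : ℕ)) a < (fun i => ((σ * swap a b) i : ℕ)) b := by
        simpa using hlt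
      have hw' := wt_lt (η := fun i => ((σ * swap a b) i : ℕ)) hab hl
      have e5 : (fun i => ((σ * swap a b) i : ℕ)) ∘ swap a b = fun i => (σ i : ℕ) := by
        funext j; simp
      rw [e5, hw] at hw'
      have := hs _ hσ' a b hab hcab (ih _ hw' _ hσ' rfl)
      rwa [mul_swap_mul_self] at this
    · push Not at hd
      have hm : Monotone fun i => (σ i : ℕ) :=
        monotone_of_no_descent fun a b hab => Fin.le_def.1 (hd a b hab)
      have hm' : Monotone σ := fun a b hab => Fin.le_def.2 (hm hab)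
      rw [(Perm.monotone_iff σ).1 hm']
      exact h1

/-- the block symmetrizer -/
noncomputable def Sy (c : Fin (n + 1) → ℕ) : PP n →ₗ[ℚ] PP n :=
  ∑ σ ∈ Stab c, (rename σ : PP n →ₐ[ℚ] PP n).toLinearMap

lemma Sy_apply (c : Fin (n + 1) → ℕ) (f : PP n) : Sy c f = ∑ σ ∈ Stab c, rename σ f := by
  simp [Sy, LinearMap.sum_apply]

lemma Sy_rename {c : Fin (n + 1) → ℕ} {τ : Perm (Fin (n + 1))} (hτ : τ ∈ Stab c) (f : PP n) :
    Sy c (rename τ f) = Sy c f := by
  rw [Sy_apply, Sy_apply, ← sum_Stab_mul hτ (fun σ => rename σ f)]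
  simp only [rename_rename, Perm.coe_mul]

lemma Sy_sw {c : Fin (n + 1) → ℕ} {a b : Fin (n + 1)} (h : c a = c b) (f : PP n) :
    Sy c (sw a b f) = Sy c f := Sy_rename (swap_mem_Stab h) f

lemma Sy_of_inv {c : Fin (n + 1) → ℕ} {f : PP n} (h : ∀ σ ∈ Stab c, rename σ f = f) :
    Sy c f = ((Stab c).card : ℚ) • f := by
  rw [Sy_apply, sum_congr rfl h, sum_const, Nat.cast_smul_eq_nsmul]

lemma inv_of_adj {c : Fin (n + 1) → ℕ} (hc : Monotone c) {f : PP n}
    (h : ∀ a b, adj a b → c a = c b → sw a b f = f) : ∀ σ ∈ Stab c, rename σ f = f := by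
  refine fun σ hσ => Stab_induction hc (P := fun σ => rename σ f = f) ?_ ?_ σ hσ
  · simp
  · intro σ _ a b hab hcab ih
    rw [Perm.coe_mul, ← rename_rename, ← sw_apply, h a b hab hcab, ih]

lemma Sy_EE_swap {c η : Fin (n + 1) → ℕ} {a b : Fin (n + 1)} (hab : adj a b) (hc : c a = c b) :
    ∃ v : ℚ, 0 < v ∧ Sy c (EE (η ∘ swap a b)) = v • Sy c (EE η) := by
  have key : ∀ η : Fin (n + 1) → ℕ, η a < η b →
      ∃ v : ℚ, 0 < v ∧ Sy c (EE (η ∘ swap a b)) = v • Sy c (EE η) := by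
    intro η h
    have := one_le_dd h
    refine ⟨1 + (dd η a b)⁻¹, by positivity, ?_⟩
    rw [EE_swap hab h, map_add, map_smul, Sy_sw hc, add_smul, one_smul]
  rcases lt_trichotomy (η a) (η b) with h | h | h
  · exact key η h
  · refine ⟨1, one_pos, ?_⟩
    rw [mem_Stab.1 (swap_mem_Stab h), one_smul]
  · obtain ⟨v, hv, e⟩ := key (η ∘ swap a b) (by simpa using h)
    rw [comp_swap_swap] at e
    refine ⟨v⁻¹, inv_pos.2 hv, ?_⟩
    rw [e, smul_smul, inv_mul_cancel₀ hv.ne', one_smul]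

lemma Sy_EE_perm {c : Fin (n + 1) → ℕ} (hc : Monotone c) (η : Fin (n + 1) → ℕ) :
    ∀ σ ∈ Stab c, ∃ v : ℚ, 0 < v ∧ Sy c (EE (η ∘ σ)) = v • Sy c (EE η) := by
  refine fun σ hσ => Stab_induction hc
    (P := fun σ => ∃ v : ℚ, 0 < v ∧ Sy c (EE (η ∘ σ)) = v • Sy c (EE η)) ?_ ?_ σ hσ
  · exact ⟨1, one_pos, by simp⟩
  · rintro σ _ a b hab hcab ⟨v, hv, e⟩
    obtain ⟨w, hw, e'⟩ := Sy_EE_swap (η := η ∘ σ) hab hcab
    refine ⟨w * v, mul_pos hw hv, ?_⟩
    rw [Perm.coe_mul, ← Function.comp_assoc, e', e, smul_smul]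

/-- one factor of the coefficient of the block symmetric combination -/
def fac (c ν : Fin (n + 1) → ℕ) (p : Fin (n + 1) × Fin (n + 1)) : ℚ :=
  if p.1 < p.2 ∧ c p.1 = c p.2 ∧ ν p.1 < ν p.2 then 1 - (dd ν p.1 p.2)⁻¹ else 1

/-- coefficient of the block symmetric combination -/
def cf (c ν : Fin (n + 1) → ℕ) : ℚ := ∏ p, fac c ν p

lemma cf_nonneg (c ν : Fin (n + 1) → ℕ) : 0 ≤ cf c ν := by
  apply prod_nonneg
  intro p _
  unfold fac
  split_ifs with h
  · have := one_le_dd h.2.2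
    have := inv_le_one_of_one_le₀ this
    linarith
  · exact zero_le_one

lemma cf_swap {c ν : Fin (n + 1) → ℕ} {a b : Fin (n + 1)} (hab : adj a b) (hc : c a = c b)
    (h : ν a < ν b) : cf c ν = (1 - (dd ν a b)⁻¹) * cf c (ν ∘ swap a b) := by
  unfold cf
  rw [← Equiv.prod_comp (Equiv.prodCongr (swap a b) (swap a b)) (fac c (ν ∘ swap a b))]
  have e0 : (1 - (dd ν a b)⁻¹) = ∏ p : Fin (n + 1) × Fin (n + 1),
      if p = (a, b) then (1 - (dd ν a b)⁻¹) else 1 := by simp
  rw [e0, ← prod_mul_distrib]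
  apply prod_congr rfl
  rintro ⟨i, j⟩ _
  have hcs := mem_Stab.1 (swap_mem_Stab hc)
  have c1 : c (swap a b i) = c i := congrFun hcs i
  have c2 : c (swap a b j) = c j := congrFun hcs j
  simp only [fac, Equiv.prodCongr_apply, Prod.map, Function.comp, swap_apply_self,
    dd_swap hab h.ne, c1, c2, Prod.mk.injEq]
  by_cases h1 : i = a ∧ j = b
  · obtain ⟨rfl, rfl⟩ := h1
    have := hab.lt
    simp [hc, h, this, this.le]
  by_cases h2 : i = b ∧ j = a
  · obtain ⟨rfl, rfl⟩ := h2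
    have := hab.lt
    simp [not_lt.2 h.le, hab.ne]
  · simp only [swap_lt_iff hab h1 h2, h1, if_false, one_mul]

lemma exists_cf_one {c : Fin (n + 1) → ℕ} (hc : Monotone c) (η : Fin (n + 1) → ℕ) :
    ∃ σ ∈ Stab c, cf c (η ∘ σ) = 1 := by
  let key : Fin (n + 1) → ℕ ×ₗ ℕᵒᵈ := fun i => toLex (c i, OrderDual.toDual (η i))
  have hm := Tuple.monotone_sort key
  set σ := Tuple.sort key
  have h1 : Monotone (c ∘ σ) := by
    intro i j hij
    have := hm hij
    simp only [Function.comp, key, Prod.Lex.toLex_le_toLex] at this ⊢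
    omega
  have h2 : c ∘ σ = c := by
    have := Tuple.unique_monotone (f := c) (σ := σ) (τ := 1) h1 (by simpa using hc)
    simpa using this
  refine ⟨σ, mem_Stab.2 h2, ?_⟩
  apply prod_eq_one
  rintro ⟨i, j⟩ _
  unfold fac
  rw [if_neg]
  rintro ⟨h3, h4, h5⟩
  have := hm h3.le
  have e1 := congrFun h2 i
  have e2 := congrFun h2 j
  simp only [Function.comp, key, Prod.Lex.toLex_le_toLex, OrderDual.toDual_le_toDual] at this e1 e2 h4 h5
  omega

/-- the block symmetric combination -/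
noncomputable def GG (c η : Fin (n + 1) → ℕ) : PP n :=
  ∑ σ ∈ Stab c, cf c (η ∘ σ) • EE (η ∘ σ)

lemma sw_pair {c ν : Fin (n + 1) → ℕ} {a b : Fin (n + 1)} (hab : adj a b) (hc : c a = c b) :
    sw a b (cf c ν • EE ν + cf c (ν ∘ swap a b) • EE (ν ∘ swap a b))
      = cf c ν • EE ν + cf c (ν ∘ swap a b) • EE (ν ∘ swap a b) := by
  have key : ∀ ν : Fin (n + 1) → ℕ, ν a < ν b →
      sw a b (cf c ν • EE ν + cf c (ν ∘ swap a b) • EE (ν ∘ swap a b))
        = cf c ν • EE ν + cf c (ν ∘ swap a b) • EE (ν ∘ swap a b) := by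
    intro ν h
    rw [cf_swap hab hc h, EE_swap hab h]
    simp only [map_add, map_smul, sw_sw]
    module
  rcases lt_trichotomy (ν a) (ν b) with h | h | h
  · exact key ν h
  · rw [mem_Stab.1 (swap_mem_Stab h), map_add, map_smul, sw_EE hab h]
  · have := key (ν ∘ swap a b) (by simpa using h)
    rw [comp_swap_swap, add_comm (cf c (ν ∘ swap a b) • EE (ν ∘ swap a b))] at this
    exact this

lemma sw_GG {c η : Fin (n + 1) → ℕ} {a b : Fin (n + 1)} (hab : adj a b) (hc : c a = c b) :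
    sw a b (GG c η) = GG c η := by
  have e : GG c η + GG c η = ∑ σ ∈ Stab c, (cf c (η ∘ σ) • EE (η ∘ σ)
      + cf c ((η ∘ σ) ∘ swap a b) • EE ((η ∘ σ) ∘ swap a b)) := by
    rw [sum_add_distrib]
    congr 1
    unfold GG
    rw [← sum_Stab_mul (swap_mem_Stab hc) (fun σ => cf c (η ∘ σ) • EE (η ∘ σ))]
    rfl
  have e2 : sw a b (GG c η + GG c η) = GG c η + GG c η := by
    rw [e, map_sum]
    exact sum_congr rfl fun σ _ => sw_pair hab hc
  rw [map_add, ← two_smul ℚ, ← two_smul ℚ] at e2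
  exact smul_right_injective _ (two_ne_zero) e2

lemma InC_Sy_EE {c : Fin (n + 1) → ℕ} (hc : Monotone c) (η : Fin (n + 1) → ℕ) :
    InC (Sy c (EE η)) := by
  have hG : InC (GG c η) :=
    InSpan.sum _ _ fun σ _ => (InSpan.base (Set.mem_range_self _)).smul (mem_NN.2 (cf_nonneg _ _))
  have h1 := Sy_of_inv (inv_of_adj hc fun a b hab hcab => sw_GG (η := η) hab hcab)
  choose! v hv using Sy_EE_perm hc η
  have h2 : Sy c (GG c η) = (∑ σ ∈ Stab c, cf c (η ∘ σ) * v σ) • Sy c (EE η) := by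
    unfold GG
    rw [map_sum, sum_smul]
    apply sum_congr rfl
    intro σ hσ
    rw [map_smul, (hv σ hσ).2, smul_smul]
  have h3 : 0 < ∑ σ ∈ Stab c, cf c (η ∘ σ) * v σ := by
    obtain ⟨τ, hτ, e⟩ := exists_cf_one hc η
    apply sum_pos' (fun σ hσ => mul_nonneg (cf_nonneg _ _) (hv σ hσ).1.le)
    exact ⟨τ, hτ, by rw [e, one_mul]; exact (hv τ hτ).1⟩
  apply InSpan.of_smul h3
  rw [← h2, h1]
  exact hG.smul (mem_NN.2 (card_Stab_pos c).le)

/-- the cone is stable under block symmetrizers -/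
lemma InC.sy {c : Fin (n + 1) → ℕ} (hc : Monotone c) {f : PP n} (h : InC f) : InC (Sy c f) := by
  refine InSpan.map (Sy c) ?_ h
  rintro _ ⟨η, rfl⟩
  exact InC_Sy_EE hc η

end Pool.Agent.MP_8b86ce_co.H45
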