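import Pool.Agent.MP_8b86ce_co.H45.Esym

set_option autoImplicit false

namespace Pool.Agent.MP_8b86ce_co.H45

open Equiv Finset MvPolynomial

section General

variable {σ : Type} [Fintype σ] [DecidableEq σ] {R : Type} [CommRing R]

/-- the division map on polynomials -/
noncomputable def dv (k : ℕ) (f : MvPolynomial σ R) : MvPolynomial σ R :=
  ∑ a ∈ f.support, if ∀ i, k ∣ a i then monomial (a.mapRange (· / k) (by simp)) (coeff a f) else 0

lemma coeff_dv {k : ℕ} (hk : 0 < k) (f : MvPolynomial σ R) (b : σ →₀ ℕ) :
    coeff b (dv k f) = coeff (k • b) f := by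
  unfold dv
  rw [coeff_sum, sum_eq_single (k • b)]
  · rw [if_pos (by intro i; simp), coeff_monomial, if_pos]
    ext i
    simp [Nat.mul_div_cancel_left _ hk]
  · intro a _ hne
    split_ifs with h
    · rw [coeff_monomial, if_neg]
      intro e
      apply hne
      ext i
      rw [← e]
      simp [Nat.mul_div_cancel' (h i)]
    · simp
  · intro h
    rw [notMem_support_iff] at h
    simp [h]

/-- the division map as a linear map -/
noncomputable def dvL {k : ℕ} (hk : 0 < k) : MvPolynomial σ R →ₗ[R] MvPolynomial σ R where
  toFun := dv k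
  map_add' f g := by ext b; simp only [coeff_dv hk, coeff_add]
  map_smul' c f := by ext b; simp only [coeff_dv hk, coeff_smul, RingHom.id_apply]

lemma coeff_dvL {k : ℕ} (hk : 0 < k) (f : MvPolynomial σ R) (b : σ →₀ ℕ) :
    coeff b (dvL hk f) = coeff (k • b) f := coeff_dv hk f b

lemma dvL_rename {k : ℕ} (hk : 0 < k) (τ : Perm σ) (f : MvPolynomial σ R) :
    dvL hk (rename τ f) = rename τ (dvL hk f) := by
  ext b
  obtain ⟨a, rfl⟩ : ∃ a : σ →₀ ℕ, b = a.mapDomain τ :=
    ⟨b.mapDomain τ.symm, by rw [← Finsupp.mapDomain_comp]; simp⟩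
  rw [coeff_rename_mapDomain _ τ.injective, coeff_dvL, coeff_dvL, ← Finsupp.mapDomain_smul,
    coeff_rename_mapDomain _ τ.injective]

lemma dvL_X_pow {k : ℕ} (hk : 0 < k) (i : σ) (f : MvPolynomial σ R) :
    dvL hk (X i ^ k * f) = X i * dvL hk f := by
  ext b
  rw [coeff_dvL, X_pow_eq_monomial, coeff_monomial_mul', coeff_X_mul', coeff_dvL]
  simp only [Finsupp.single_le_iff, Finsupp.mem_support_iff, Finsupp.smul_apply, smul_eq_mul,
    one_mul]
  by_cases h : b i = 0
  · rw [if_neg (by rw [h]; omega), if_neg (by simpa using h)]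
  · rw [if_pos (Nat.le_mul_of_pos_right _ (Nat.pos_of_ne_zero h)), if_pos h]
    congr 1
    ext j
    simp only [Finsupp.coe_tsub, Pi.sub_apply, Finsupp.smul_apply, smul_eq_mul,
      Finsupp.single_apply]
    split_ifs <;> simp [Nat.mul_sub]

omit [DecidableEq σ] in
lemma prod_esymm_symm (L : Multiset ℕ) : IsSymmetric (L.map (esymm σ R)).prod := by
  induction L using Multiset.induction_on with
  | empty => simp
  | cons a L ih =>
    rw [Multiset.map_cons, Multiset.prod_cons]
    exact (esymm_isSymmetric _ _ _).mul ih

lemma dvL_symm {k : ℕ} (hk : 0 < k) {f : MvPolynomial σ R} (hf : IsSymmetric f) :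
    IsSymmetric (dvL hk f) := fun τ => by rw [← dvL_rename, hf τ]

end General

variable {n : ℕ}

lemma mono_eq (c : Fin (n + 1) → ℕ) :
    mono c = monomial (Finsupp.equivFunOnFinite.symm c) (1 : ℚ) := by
  rw [monomial_eq, C_1, one_mul, Finsupp.prod_fintype _ _ (by simp)]
  rfl

lemma dvL_mono_small {k : ℕ} (hk : 0 < k) {c : Fin (n + 1) → ℕ} (hc : ∀ i, c i < k) :
    InC (dvL hk (mono c)) := by
  by_cases h0 : c = fun _ => 0
  · have : dvL hk (mono c) = EE (fun _ : Fin (n + 1) => 0) := by
      rw [EE_zero, h0]
      ext b
      simp only [mono, pow_zero, prod_const_one, coeff_dvL, coeff_one]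
      congr 1
      apply propext
      constructor
      · intro h
        ext i
        have := DFunLike.congr_fun h i
        simp only [Finsupp.coe_zero, Pi.zero_apply, Finsupp.smul_apply, smul_eq_mul] at this ⊢
        rcases Nat.mul_eq_zero.1 this.symm with h1 | h1 <;> omega
      · intro h; rw [← h]; simp
    rw [this]
    exact InSpan.base (Set.mem_range_self _)
  · have : dvL hk (mono c) = 0 := by
      ext b
      rw [coeff_dvL, mono_eq, coeff_monomial, if_neg, coeff_zero]
      intro h
      apply h0
      funext i
      have := DFunLike.congr_fun h i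
      simp only [Finsupp.equivFunOnFinite_symm_apply_apply, Finsupp.smul_apply, smul_eq_mul] at this
      have h2 := hc i
      rcases Nat.eq_zero_or_pos (b i) with h1 | h1
      · rw [this, h1, mul_zero]
      · have := Nat.le_mul_of_pos_right k h1
        omega
    rw [this]
    exact InSpan.zero

/-- pass from exponents below `k` to exponents at most `k` -/
lemma extend_le {k : ℕ} (hk : 0 < k) {P : PP n} (hP : P.IsSymmetric)
    (h : ∀ c : Fin (n + 1) → ℕ, Monotone c → (∀ i, c i < k) → InC (dvL hk (mono c * P)))
    (c : Fin (n + 1) → ℕ) (hc : Monotone c) (hle : ∀ i, c i ≤ k) : InC (dvL hk (mono c * P)) := by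
  induction hd : deg c using Nat.strong_induction_on generalizing c with
  | _ d ih =>
    by_cases hl : c (Fin.last n) < k
    · exact h c hc fun i => lt_of_le_of_lt (hc (Fin.le_last i)) hl
    · have hl' : c (Fin.last n) = k := le_antisymm (hle _) (not_lt.1 hl)
      set c' : Fin (n + 1) → ℕ := fun j => if rot.symm j = Fin.last n then 0 else c (rot.symm j)
        with hc'
      have e1 : c = (fun i => if i = Fin.last n then k else 0) + c' ∘ rot := by
        funext i
        simp only [hc', Pi.add_apply, Function.comp, symm_apply_apply]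
        split_ifs with hi
        · rw [hi, hl', add_zero]
        · rw [zero_add]
      have hm : Monotone c' := by
        intro i j hij
        obtain ⟨i, rfl⟩ := rot.surjective i
        obtain ⟨j, rfl⟩ := rot.surjective j
        simp only [hc', symm_apply_apply]
        rw [Fin.le_def, rot_val, rot_val] at hij
        simp only [Fin.ext_iff, Fin.val_last]
        split_ifs at hij ⊢ with h1 h2 h2
        · exact le_rfl
        · exact Nat.zero_le _
        · omega
        · exact hc (Fin.le_def.2 (by omega))
      have hle' : ∀ i, c' i ≤ k := by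
        intro i
        simp only [hc']
        split_ifs
        · exact Nat.zero_le _
        · exact hle _
      have hdeg : deg c' < d := by
        have e2 : deg c = k + deg c' := by
          rw [← deg_comp c' rot]
          conv_lhs => rw [e1]
          simp [deg, sum_add_distrib]
        omega
      have e3 : dvL hk (mono c * P) = Phi (dvL hk (mono c' * P)) := by
        rw [Phi, ← dvL_rename, ← dvL_X_pow, map_mul (rename _), rename_rot_mono, hP rot.symm, ← mul_assoc,
          ← mono_single, ← mono_add, ← e1]
      rw [e3]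
      exact (ih _ hdeg c' hm hle' rfl).phi

lemma exists_sort_ind {c : Fin (n + 1) → ℕ} (hc : Monotone c) (S : Finset (Fin (n + 1))) :
    ∃ σ ∈ Stab c, Monotone ((c + ind S) ∘ σ) := by
  let key : Fin (n + 1) → ℕ ×ₗ ℕ := fun i => toLex (c i, ind S i)
  have hm := Tuple.monotone_sort key
  set σ := Tuple.sort key
  have h1 : Monotone (c ∘ σ) := by
    intro i j hij
    have := hm hij
    simp only [Function.comp, key, Prod.Lex.toLex_le_toLex] at this ⊢
    omega
  have h2 : c ∘ σ = c := by
    have := Tuple.unique_monotone (f := c) (σ := σ) (τ := 1) h1 (by simpa using hc)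
    simpa using this
  refine ⟨σ, mem_Stab.2 h2, ?_⟩
  intro i j hij
  have := hm hij
  have e1 : ind S (σ i) ≤ 1 := by unfold ind; split_ifs <;> omega
  simp only [Function.comp, key, Prod.Lex.toLex_le_toLex, Pi.add_apply] at this ⊢
  omega

/-- the main induction -/
lemma main_cone {k : ℕ} (hk : 0 < k) (L : Multiset ℕ) :
    ∀ c : Fin (n + 1) → ℕ, Monotone c → (∀ i, c i < k) →
      InC (dvL hk (mono c * (L.map (esymm (Fin (n + 1)) ℚ)).prod)) := by
  induction L using Multiset.induction_on with
  | empty =>
    intro c _ hc
    simpa using dvL_mono_small hk hc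
  | cons m L ih =>
    intro c hc hlt
    have hP := prod_esymm_symm (σ := Fin (n + 1)) (R := ℚ) L
    have hP' := prod_esymm_symm (σ := Fin (n + 1)) (R := ℚ) (m ::ₘ L)
    have ih' := extend_le hk hP ih
    apply InSpan.of_smul (card_Stab_pos c)
    rw [← Sy_of_inv]
    · rw [Multiset.map_cons, Multiset.prod_cons, ← mul_assoc, esymm_eq, mul_sum, sum_mul, map_sum,
        map_sum]
      apply InSpan.sum
      intro S _
      obtain ⟨σ, hσ, hm⟩ := exists_sort_ind hc S
      rw [← mono_add, ← rename_mono σ (c + ind S), ← hP σ, ← map_mul, dvL_rename, Sy_rename hσ]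
      apply InC.sy hc
      apply ih' _ hm
      intro i
      have e1 : ind S (σ i) ≤ 1 := by unfold ind; split_ifs <;> omega
      have := hlt (σ i)
      simp only [Function.comp, Pi.add_apply]
      omega
    · intro σ hσ
      rw [← dvL_rename, map_mul (rename _), hP' σ]
      congr 2
      conv_lhs => rw [← mem_Stab.1 hσ]
      exact rename_mono σ c

/-- positivity over the rationals -/
lemma dvL_epos {k : ℕ} (hk : 0 < k) (L : Multiset ℕ) :
    InSpan NN (Gens (Fin (n + 1))) (dvL hk (L.map (esymm (Fin (n + 1)) ℚ)).prod) := by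
  apply InC.epos _ (dvL_symm hk (prod_esymm_symm L))
  have := main_cone (n := n) hk L zz zz_mono (fun _ => hk)
  simpa [mono, zz] using this

end Pool.Agent.MP_8b86ce_co.H45
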