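import Pool.Agent.MP_8b86ce_co.H45.Cone

set_option autoImplicit false

namespace Pool.Agent.MP_8b86ce_co.H45

open Equiv Finset MvPolynomial

variable {n : ℕ}

/-- the zero vector -/
def zz : Fin (n + 1) → ℕ := fun _ => 0

lemma zz_mono : Monotone (zz (n := n)) := fun _ _ _ => le_rfl

lemma mem_Stab_zz (σ : Perm (Fin (n + 1))) : σ ∈ Stab (zz (n := n)) := mem_Stab.2 rfl

/-- the dominant zero-one vector -/
def uu (m : ℕ) : Fin (n + 1) → ℕ := fun i => if (i : ℕ) < m then 1 else 0

lemma uu_anti (m : ℕ) : Antitone (uu (n := n) m) := by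
  intro i j hij
  rw [Fin.le_def] at hij
  unfold uu
  split_ifs <;> omega

lemma sw_EE_of_dd_one {η : Fin (n + 1) → ℕ} {a b : Fin (n + 1)} (hab : adj a b)
    (hη : Antitone η) : sw a b (EE η) = EE η := by
  rcases (hη hab.lt.le).lt_or_eq with h | h
  · have h1 : (η ∘ swap a b) a < (η ∘ swap a b) b := by simpa using h
    have h2 := EE_swap hab h1
    have h3 : dd (η ∘ swap a b) a b = 1 := by
      rw [dd_swap hab h.ne', swap_apply_left, swap_apply_right]
      unfold dd
      rw [rk_antitone hη, rk_antitone hη, show (b : ℕ) = a + 1 from hab]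
      push_cast; ring
    rw [comp_swap_swap, h3] at h2
    rw [h2]
    simp only [map_add, sw_sw, inv_one, one_smul]
    exact add_comm _ _
  · exact sw_EE hab h.symm

lemma rename_EE_anti {η : Fin (n + 1) → ℕ} (hη : Antitone η) (σ : Perm (Fin (n + 1))) :
    rename σ (EE η) = EE η :=
  inv_of_adj zz_mono (fun _ _ hab _ => sw_EE_of_dd_one hab hη) σ (mem_Stab_zz σ)

lemma bump_zero (m : ℕ) : bump m (fun _ : Fin (n + 1) => 0) = uu m := by
  funext i
  have : rk (fun _ : Fin (n + 1) => 0) i = i := rk_antitone (fun _ _ _ => le_rfl) i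
  simp only [bump, this, uu, zero_add]

lemma EE_bump (m : ℕ) (η : Fin (n + 1) → ℕ) : EE (bump m η) = EE (uu m) * EE η := by
  have hs := rename_EE_anti (uu_anti (n := n) m)
  have key : ∀ (η : Fin (n + 1) → ℕ) (f : PP n), IsE η f → IsE (bump m η) (EE (uu m) * f) := by
    intro η f h
    induction h with
    | zero => rw [bump_zero, mul_one]; exact isE_EE _
    | @phi η f _ ih =>
      have e : EE (uu m) * Phi f = Phi (EE (uu m) * f) := by
        simp only [Phi, map_mul, hs rot.symm]
        ring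
      rw [bump_shift, e]
      exact ih.phi
    | @swp η f a b hab hlt _ ih =>
      have e : EE (uu m) * TT a b (dd η a b) f = TT a b (dd (bump m η) a b) (EE (uu m) * f) := by
        simp only [TT, sw_apply, map_mul, hs (swap a b), dd, rk_bump, mul_add, mul_smul_comm]
      rw [bump_swap m hab hlt.ne, e]
      exact IsE.swp hab (bump_lt m hlt) ih
  exact (key η _ (isE_EE η)).eq

/-- a monomial -/
noncomputable def mono (c : Fin (n + 1) → ℕ) : PP n := ∏ i, X i ^ c i

lemma rename_mono (σ : Perm (Fin (n + 1))) (c : Fin (n + 1) → ℕ) :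
    rename σ (mono (c ∘ σ)) = mono c := by
  simp only [mono, map_prod, map_pow, rename_X, Function.comp]
  exact Equiv.prod_comp σ (fun i => (X i : PP n) ^ c i)

lemma mono_add (c d : Fin (n + 1) → ℕ) : mono (c + d) = mono c * mono d := by
  simp only [mono, Pi.add_apply, pow_add, prod_mul_distrib]

/-- indicator vector -/
def ind (S : Finset (Fin (n + 1))) : Fin (n + 1) → ℕ := fun i => if i ∈ S then 1 else 0

lemma mono_ind (S : Finset (Fin (n + 1))) : mono (ind S) = ∏ i ∈ S, X i := by
  simp only [mono, ind, pow_ite, pow_one, pow_zero]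
  rw [prod_ite_mem, univ_inter]

lemma mono_single (k : ℕ) (j : Fin (n + 1)) :
    mono (fun i => if i = j then k else 0) = (X j : PP n) ^ k := by
  simp only [mono, pow_ite, pow_zero]
  rw [prod_ite_eq']
  simp

lemma rename_rot_mono (c : Fin (n + 1) → ℕ) : rename rot.symm (mono c) = mono (c ∘ rot) := by
  have := rename_mono rot.symm (c ∘ rot)
  rwa [Function.comp_assoc, self_comp_symm, Function.comp_id] at this

lemma Phi_mono (c : Fin (n + 1) → ℕ) : Phi (mono c) = mono (shift c) := by
  have : shift c = (fun i => if i = Fin.last n then 1 else 0) + c ∘ rot := by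
    funext i; simp only [shift, Pi.add_apply, Function.comp]; omega
  rw [this, mono_add, mono_single, Phi, rename_rot_mono, pow_one]

lemma esymm_eq (m : ℕ) :
    esymm (Fin (n + 1)) ℚ m = ∑ S ∈ powersetCard m univ, mono (ind S) := by
  simp only [esymm, mono_ind]

/-- the antidominant zero-one vector -/
def ii (m : ℕ) : Finset (Fin (n + 1)) := univ.filter fun i => n + 1 ≤ (i : ℕ) + m

lemma ind_ii_succ {m : ℕ} (hm : m ≤ n) : ind (ii (n := n) (m + 1)) = shift (ind (ii m)) := by
  funext i
  have := i.2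
  simp only [ind, ii, shift, mem_filter, mem_univ, true_and, rot_val, Fin.ext_iff, Fin.val_last]
  split_ifs <;> omega

lemma EE_ii {m : ℕ} (hm : m ≤ n + 1) :
    EE (ind (ii (n := n) m)) = mono (ind (ii m)) ∧ deg (ind (ii (n := n) m)) = m := by
  induction m with
  | zero =>
    have : ind (ii (n := n) 0) = fun _ => 0 := by
      funext i
      have := i.2
      simp only [ind, ii, mem_filter, mem_univ, true_and]
      split_ifs <;> omega
    rw [this, EE_zero]
    simp [mono, deg]
  | succ m ih =>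
    obtain ⟨h1, h2⟩ := ih (by omega)
    rw [ind_ii_succ (by omega), EE_shift, h1, Phi_mono, deg_shift, h2]
    exact ⟨rfl, rfl⟩

lemma deg_ind (S : Finset (Fin (n + 1))) : deg (ind S) = S.card := by
  simp [deg, ind]

lemma exists_perm_ind {S T : Finset (Fin (n + 1))} (h : S.card = T.card) :
    ∃ σ : Perm (Fin (n + 1)), ind S = ind T ∘ σ := by
  obtain ⟨σ, hσ⟩ := Perm.exists_map_finset_eq S T h
  refine ⟨σ, ?_⟩
  funext i
  simp only [ind, Function.comp, ← hσ]
  simp

lemma EE_uu {m : ℕ} (hm : m ≤ n + 1) :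
    ∃ v : ℚ, 0 < v ∧ EE (uu (n := n) m) = v • esymm (Fin (n + 1)) ℚ m := by
  obtain ⟨h1, h2⟩ := EE_ii hm
  rw [deg_ind] at h2
  set T : Finset (Fin (n + 1)) := univ.filter fun i => (i : ℕ) < m with hT
  have e1 : uu (n := n) m = ind T := by
    funext i; simp [uu, ind, hT]
  have cT : T.card = m := by
    have : T = univ.map (Fin.castLEEmb hm) := by
      ext i
      simp only [hT, mem_filter, mem_univ, true_and, mem_map, Fin.castLEEmb_apply]
      constructor
      · intro hi; exact ⟨⟨i, hi⟩, rfl⟩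
      · rintro ⟨j, rfl⟩; exact j.2
    rw [this]; simp
  obtain ⟨σ, hσ⟩ := exists_perm_ind (S := T) (T := ii m) (cT.trans h2.symm)
  obtain ⟨v, hv, e2⟩ := Sy_EE_perm zz_mono (ind (ii m)) σ (mem_Stab_zz σ)
  rw [← hσ, ← e1, h1, Sy_of_inv (fun σ _ => rename_EE_anti (uu_anti m) σ)] at e2
  have e3 : Sy zz (esymm (Fin (n + 1)) ℚ m)
      = ((powersetCard m (univ : Finset (Fin (n + 1)))).card : ℚ) • Sy zz (mono (ind (ii m))) := by
    rw [esymm_eq, map_sum, Nat.cast_smul_eq_nsmul, ← sum_const]
    apply sum_congr rfl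
    intro S hS
    obtain ⟨τ, hτ⟩ := exists_perm_ind (S := ii m) (T := S)
      (h2.trans (mem_powersetCard_univ.1 hS).symm)
    rw [hτ, ← rename_mono τ (ind S), Sy_rename (mem_Stab_zz τ)]
  rw [Sy_of_inv (fun σ _ => esymm_isSymmetric _ _ _ σ)] at e3
  have p1 : (0 : ℚ) < ((powersetCard m (univ : Finset (Fin (n + 1)))).card : ℚ) := by
    rw [card_powersetCard]
    exact_mod_cast Nat.choose_pos (by simpa using hm)
  have p2 := card_Stab_pos (zz (n := n))
  set A : ℚ := ((Stab (zz (n := n))).card : ℚ)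
  set B : ℚ := ((powersetCard m (univ : Finset (Fin (n + 1)))).card : ℚ)
  refine ⟨v / B, by positivity, ?_⟩
  apply smul_right_injective _ p2.ne'
  simp only
  rw [e2, smul_comm A, e3, smul_smul, div_mul_cancel₀ _ p1.ne']

/-- products of elementary symmetric polynomials -/
def Gens (σ : Type) [Fintype σ] : Set (MvPolynomial σ ℚ) :=
  {f | ∃ L : Multiset ℕ, (∀ x ∈ L, 0 < x) ∧ f = (L.map (esymm σ ℚ)).prod}

lemma EE_anti {η : Fin (n + 1) → ℕ} (hη : Antitone η) :
    ∃ v : ℚ, 0 < v ∧ ∃ g ∈ Gens (Fin (n + 1)), EE η = v • g := by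
  induction hd : deg η using Nat.strong_induction_on generalizing η with
  | _ d ih =>
    by_cases h0 : η 0 = 0
    · have : η = fun _ => 0 := by
        funext i
        have := hη (Fin.zero_le i)
        omega
      refine ⟨1, one_pos, 1, ⟨0, by simp, by simp⟩, ?_⟩
      rw [this, EE_zero, one_smul]
    · set m := (univ.filter fun i => 0 < η i).card with hm
      have hlt : ∀ i : Fin (n + 1), (i : ℕ) < m ↔ 0 < η i := fun i =>
        Tuple.lt_card_gt_iff_apply_gt_of_antitone hη
      set ν : Fin (n + 1) → ℕ := fun i => η i - 1 with hν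
      have hνa : Antitone ν := fun i j hij => Nat.sub_le_sub_right (hη hij) 1
      have e1 : η = bump m ν := by
        funext i
        simp only [bump, rk_antitone hνa, hlt]
        have : ν i = η i - 1 := rfl
        split_ifs <;> omega
      have hm0 : 0 < m := (hlt 0).2 (by omega)
      have hmN : m ≤ n + 1 := by
        have := card_filter_le (univ : Finset (Fin (n + 1))) (fun i => 0 < η i)
        simpa using this
      have hdeg : deg ν < d := by
        rw [← hd]
        apply sum_lt_sum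
        · intro i _; exact Nat.sub_le _ _
        · exact ⟨0, mem_univ _, by simp only [hν]; omega⟩
      obtain ⟨v, hv, g, ⟨L, hL, rfl⟩, e2⟩ := ih _ hdeg hνa rfl
      obtain ⟨w, hw, e3⟩ := EE_uu hmN
      refine ⟨w * v, mul_pos hw hv, _, ⟨m ::ₘ L, ?_, rfl⟩, ?_⟩
      · intro x hx
        rcases Multiset.mem_cons.1 hx with rfl | hx
        · exact hm0
        · exact hL x hx
      · rw [e1, EE_bump, e2, e3, Multiset.map_cons, Multiset.prod_cons, smul_mul_smul_comm]

lemma exists_antitone (η : Fin (n + 1) → ℕ) : ∃ σ : Perm (Fin (n + 1)), Antitone (η ∘ σ) :=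
  ⟨Tuple.sort (fun i => OrderDual.toDual (η i)),
    fun _ _ hij => Tuple.monotone_sort (fun i => OrderDual.toDual (η i)) hij⟩

/-- a symmetric element of the cone is a nonnegative combination of products of elementary
symmetric polynomials -/
lemma InC.epos {f : PP n} (h : InC f) (hs : f.IsSymmetric) : InSpan NN (Gens (Fin (n + 1))) f := by
  apply InSpan.of_smul (card_Stab_pos (zz (n := n)))
  rw [← Sy_of_inv (fun σ _ => hs σ)]
  refine InSpan.map (Sy zz) ?_ h
  rintro _ ⟨η, rfl⟩
  obtain ⟨σ, hσ⟩ := exists_antitone η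
  obtain ⟨v, hv, e⟩ := Sy_EE_perm zz_mono η σ (mem_Stab_zz σ)
  apply InSpan.of_smul hv
  rw [← e, Sy_of_inv (fun τ _ => rename_EE_anti hσ τ)]
  obtain ⟨w, hw, g, hg, e'⟩ := EE_anti hσ
  rw [e']
  exact ((InSpan.base hg).smul (mem_NN.2 hw.le)).smul (mem_NN.2 (card_Stab_pos _).le)

end Pool.Agent.MP_8b86ce_co.H45
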