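import Pool.Agent.MP_8b86ce_co.H45.Div

set_option autoImplicit false

namespace Pool.Agent.MP_8b86ce_co.H45

open Equiv Finset MvPolynomial

variable {σ : Type} [Fintype σ] [DecidableEq σ]

omit [DecidableEq σ] in
lemma esymm_hom (m : ℕ) : IsHomogeneous (esymm σ ℚ m) m := by
  unfold esymm
  apply IsHomogeneous.sum
  intro S hS
  have := IsHomogeneous.prod S (fun i => (X i : MvPolynomial σ ℚ)) (fun _ => 1)
    (fun i _ => isHomogeneous_X ℚ i)
  rwa [sum_const, smul_eq_mul, mul_one, mem_powersetCard_univ.1 hS] at this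

omit [DecidableEq σ] in
lemma prod_esymm_hom (L : Multiset ℕ) : IsHomogeneous (L.map (esymm σ ℚ)).prod L.sum := by
  induction L using Multiset.induction_on with
  | empty => simpa using isHomogeneous_one σ ℚ
  | cons a L ih =>
    rw [Multiset.map_cons, Multiset.prod_cons, Multiset.sum_cons]
    exact (esymm_hom a).mul ih

omit [DecidableEq σ] in
lemma extract {K : Subsemiring ℚ} (n : ℕ) {f : MvPolynomial σ ℚ} (h : InSpan K (Gens σ) f) :
    ∃ c : n.Partition → ℚ, (∀ l, c l ∈ K) ∧
      homogeneousComponent n f = ∑ l, c l • esymmPart σ ℚ l := by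
  induction h with
  | base h =>
    obtain ⟨L, hL, rfl⟩ := h
    rw [homogeneousComponent_of_mem (prod_esymm_hom L)]
    split_ifs with hn
    · let l0 : n.Partition := ⟨L, fun {i} hi => hL i hi, hn.symm⟩
      refine ⟨fun l => if l = l0 then 1 else 0, ?_, ?_⟩
      · intro l
        simp only
        split_ifs
        · exact K.one_mem
        · exact K.zero_mem
      · simp only [ite_smul, one_smul, zero_smul, sum_ite_eq', mem_univ, if_true]
        rfl
    · exact ⟨fun _ => 0, fun _ => K.zero_mem, by simp⟩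
  | zero => exact ⟨fun _ => 0, fun _ => K.zero_mem, by simp⟩
  | add _ _ h1 h2 =>
    obtain ⟨c1, k1, e1⟩ := h1
    obtain ⟨c2, k2, e2⟩ := h2
    refine ⟨fun l => c1 l + c2 l, fun l => K.add_mem (k1 l) (k2 l), ?_⟩
    rw [map_add, e1, e2, ← sum_add_distrib]
    simp only [add_smul]
  | @smul a v ha _ h =>
    obtain ⟨c, k, e⟩ := h
    refine ⟨fun l => a * c l, fun l => K.mul_mem ha (k l), ?_⟩
    rw [map_smul, e, smul_sum]
    simp only [smul_smul]

lemma hom_dvL {k n : ℕ} (hk : 0 < k) {f : MvPolynomial σ ℚ} (hf : f.IsHomogeneous (k * n)) :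
    homogeneousComponent n (dvL hk f) = dvL hk f := by
  ext d
  rw [coeff_homogeneousComponent]
  split_ifs with h
  · rfl
  · rw [coeff_dvL, hf.coeff_eq_zero]
    rw [map_nsmul, smul_eq_mul]
    intro e
    exact h (Nat.eq_of_mul_eq_mul_left hk e)

/-- the integers inside the rationals -/
def ZZ : Subsemiring ℚ := (Int.castRingHom ℚ).rangeS

lemma dvL_int {k : ℕ} (hk : 0 < k) (L : Multiset ℕ) :
    InSpan ZZ (Gens σ) (dvL hk (L.map (esymm σ ℚ)).prod) := by
  have e1 : (L.map (esymm σ ℚ)).prod = map (Int.castRingHom ℚ) (L.map (esymm σ ℤ)).prod := by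
    rw [map_multiset_prod, Multiset.map_map]
    simp only [Function.comp_def, map_esymm]
  have e2 : dvL hk (L.map (esymm σ ℚ)).prod
      = map (Int.castRingHom ℚ) (dvL hk (L.map (esymm σ ℤ)).prod) := by
    ext b
    rw [coeff_map, coeff_dvL, coeff_dvL, e1, coeff_map]
  obtain ⟨g, hg⟩ := esymmAlgHom_surjective (σ := σ) ℤ (n := Fintype.card σ) le_rfl
    ⟨_, dvL_symm hk (prod_esymm_symm (σ := σ) (R := ℤ) L)⟩
  have e3 := congrArg Subtype.val hg
  rw [esymmAlgHom_apply] at e3
  simp only at e3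
  rw [e2, ← e3]
  clear hg e3
  induction g using MvPolynomial.induction_on with
  | C a =>
    have : map (Int.castRingHom ℚ) (aeval (fun i : Fin (Fintype.card σ) => esymm σ ℤ (i + 1)) (C a))
        = (a : ℚ) • (1 : MvPolynomial σ ℚ) := by
      simp [smul_eq_C_mul]
    rw [this]
    exact InSpan.smul ⟨a, rfl⟩ (InSpan.base ⟨0, by simp, by simp⟩)
  | add p q hp hq =>
    rw [map_add, map_add]
    exact hp.add hq
  | mul_X p i hp =>
    rw [map_mul, map_mul, aeval_X, map_esymm]
    refine InSpan.map (LinearMap.mulRight ℚ (esymm σ ℚ (i + 1))) ?_ hp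
    rintro _ ⟨L, hL, rfl⟩
    refine InSpan.base ⟨((i : ℕ) + 1) ::ₘ L, ?_, ?_⟩
    · intro x hx
      rcases Multiset.mem_cons.1 hx with rfl | hx
      · omega
      · exact hL x hx
    · simp [mul_comm]

/-- multiplicity vector of a partition -/
noncomputable def cnt {n : ℕ} (l : n.Partition) : Fin n →₀ ℕ :=
  Finsupp.equivFunOnFinite.symm fun i => l.parts.count ((i : ℕ) + 1)

lemma cnt_injective {n : ℕ} : Function.Injective (cnt (n := n)) := by
  intro l l' h
  ext a
  by_cases ha : 0 < a ∧ a ≤ n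
  · have := DFunLike.congr_fun h ⟨a - 1, by omega⟩
    simp only [cnt, Finsupp.equivFunOnFinite_symm_apply_apply] at this
    rwa [Nat.sub_add_cancel ha.1] at this
  · rw [Multiset.count_eq_zero_of_notMem, Multiset.count_eq_zero_of_notMem]
    · intro hm; exact ha ⟨l'.parts_pos hm, Nat.Partition.le_of_mem_parts hm⟩
    · intro hm; exact ha ⟨l.parts_pos hm, Nat.Partition.le_of_mem_parts hm⟩

omit [DecidableEq σ] in
lemma aeval_cnt {n : ℕ} (l : n.Partition) :
    aeval (fun i : Fin n => esymm σ ℚ (i + 1)) (monomial (cnt l) (1 : ℚ)) = esymmPart σ ℚ l := by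
  rw [aeval_monomial, map_one, one_mul, Finsupp.prod_fintype _ _ (by simp)]
  simp only [cnt, Finsupp.equivFunOnFinite_symm_apply_apply]
  unfold esymmPart
  rw [Finset.prod_multiset_map_count,
    Fin.prod_univ_eq_prod_range (fun i => esymm σ ℚ (i + 1) ^ l.parts.count (i + 1)) n]
  have e : ∏ i ∈ range n, esymm σ ℚ (i + 1) ^ l.parts.count (i + 1)
      = ∏ a ∈ (range n).image (· + 1), esymm σ ℚ a ^ l.parts.count a := by
    rw [prod_image (fun x _ y _ h => by simpa using h)]
  rw [e]
  symm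
  apply prod_subset
  · intro a ha
    rw [Multiset.mem_toFinset] at ha
    have h1 := l.parts_pos ha
    have h2 := Nat.Partition.le_of_mem_parts ha
    exact mem_image.2 ⟨a - 1, mem_range.2 (by omega), by omega⟩
  · intro a _ ha
    rw [Multiset.mem_toFinset] at ha
    rw [Multiset.count_eq_zero_of_notMem ha, pow_zero]

omit [DecidableEq σ] in
lemma esymmPart_indep {n : ℕ} (hn : n ≤ Fintype.card σ) {c c' : n.Partition → ℚ}
    (h : ∑ l, c l • esymmPart σ ℚ l = ∑ l, c' l • esymmPart σ ℚ l) : c = c' := by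
  have key : ∀ c : n.Partition → ℚ, ∑ l, c l • esymmPart σ ℚ l
      = (esymmAlgHom σ ℚ n (∑ l, c l • monomial (cnt l) (1 : ℚ))).val := by
    intro c
    rw [esymmAlgHom_apply, map_sum]
    simp only [map_smul, aeval_cnt]
  rw [key, key] at h
  have h2 := esymmAlgHom_injective (σ := σ) ℚ hn (Subtype.ext h)
  funext l
  have h3 := congrArg (coeff (cnt l)) h2
  simpa [coeff_sum, coeff_monomial, cnt_injective.eq_iff] using h3

/-- the theorem in finitely many variables -/
lemma finite_version {k n N : ℕ} (hk : 0 < k) (hn : n ≤ N + 1) (μ : (k * n).Partition) :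
    ∃ c : n.Partition → ℕ, dvL hk (esymmPart (Fin (N + 1)) ℚ μ)
      = ∑ l, (c l : ℚ) • esymmPart (Fin (N + 1)) ℚ l := by
  have hh : (esymmPart (Fin (N + 1)) ℚ μ).IsHomogeneous (k * n) := by
    have := prod_esymm_hom (σ := Fin (N + 1)) μ.parts
    rwa [μ.parts_sum] at this
  obtain ⟨c1, k1, e1⟩ := extract n (dvL_epos (n := N) hk μ.parts)
  obtain ⟨c2, k2, e2⟩ := extract n (dvL_int (σ := Fin (N + 1)) hk μ.parts)
  have e3 : c1 = c2 := esymmPart_indep (by simpa using hn) (e1.symm.trans e2)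
  subst e3
  have e4 : ∀ l, ∃ m : ℕ, c1 l = m := by
    intro l
    obtain ⟨z, hz⟩ := k2 l
    have h0 : (0 : ℚ) ≤ c1 l := k1 l
    rw [← hz] at h0
    have h1 : 0 ≤ z := by simpa using h0
    obtain ⟨m, rfl⟩ := Int.eq_ofNat_of_zero_le h1
    exact ⟨m, by rw [← hz]; simp⟩
  choose c hc using e4
  refine ⟨c, ?_⟩
  rw [← hom_dvL hk hh]
  simp only [← hc]
  exact e1

end Pool.Agent.MP_8b86ce_co.H45
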