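import Pool.Agent.MP_8b86ce_co.H45.Rank

set_option autoImplicit false

namespace Pool.Agent.MP_8b86ce_co.H45

open Equiv Finset MvPolynomial

section Abstract

variable {V : Type*} [AddCommGroup V] [Module ℚ V]

/-- Yang-Baxter relation for the operators `S + 1/p` -/
lemma yang_baxter (S T : V →ₗ[ℚ] V) (hS : ∀ v, S (S v) = v) (hT : ∀ v, T (T v) = v)
    (hb : ∀ v, S (T (S v)) = T (S (T v))) (p q : ℚ) (hp : p ≠ 0) (hq : q ≠ 0) (hpq : p + q ≠ 0)
    (h : V) :
    S (T (S h + q⁻¹ • h) + (p + q)⁻¹ • (S h + q⁻¹ • h))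
        + p⁻¹ • (T (S h + q⁻¹ • h) + (p + q)⁻¹ • (S h + q⁻¹ • h))
      = T (S (T h + p⁻¹ • h) + (p + q)⁻¹ • (T h + p⁻¹ • h))
        + q⁻¹ • (S (T h + p⁻¹ • h) + (p + q)⁻¹ • (T h + p⁻¹ • h)) := by
  simp only [map_add, map_smul, hS, hT, hb]
  match_scalars <;> field_simp <;> ring

lemma yb_invariant (S T : V →ₗ[ℚ] V) (hT : ∀ v, T (T v) = v)
    (hb : ∀ v, S (T (S v)) = T (S (T v))) (d : ℚ) (hd : d ≠ 0) (hd1 : d - 1 ≠ 0)
    (h : V) (hSh : S h = h) :
    T (S (T h + d⁻¹ • h) + (d - 1)⁻¹ • (T h + d⁻¹ • h))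
      = S (T h + d⁻¹ • h) + (d - 1)⁻¹ • (T h + d⁻¹ • h) := by
  have h1 : T (S (T h)) = S (T h) := by rw [← hb, hSh]
  simp only [map_add, map_smul, hT, hSh, h1]
  match_scalars <;> field_simp <;> ring

end Abstract

variable {n : ℕ}

/-- the polynomial ring -/
abbrev PP (n : ℕ) := MvPolynomial (Fin (n + 1)) ℚ

/-- exchange of two variables as a linear map -/
noncomputable def sw (a b : Fin (n + 1)) : PP n →ₗ[ℚ] PP n := (rename (swap a b)).toLinearMap

lemma sw_apply (a b : Fin (n + 1)) (f : PP n) : sw a b f = rename (swap a b) f := rfl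

/-- the raising operator -/
noncomputable def Phi (f : PP n) : PP n := X (Fin.last n) * rename rot.symm f

lemma Phi_add (f g : PP n) : Phi (f + g) = Phi f + Phi g := by simp [Phi, mul_add]

lemma Phi_smul (c : ℚ) (f : PP n) : Phi (c • f) = c • Phi f := by simp [Phi]

lemma Phi_zero : Phi (0 : PP n) = 0 := by simp [Phi]

lemma sw_sw (a b : Fin (n + 1)) (f : PP n) : sw a b (sw a b f) = f := by
  simp only [sw_apply, rename_rename]
  have : (swap a b : Fin (n + 1) → Fin (n + 1)) ∘ swap a b = id := by funext j; simp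
  rw [this, rename_id_apply]

lemma sw_comm {a b c d : Fin (n + 1)} (h1 : a ≠ c) (h2 : a ≠ d) (h3 : b ≠ c) (h4 : b ≠ d)
    (f : PP n) : sw a b (sw c d f) = sw c d (sw a b f) := by
  simp only [sw_apply, rename_rename]
  congr 2
  funext j
  simp only [Function.comp, swap_apply_def]
  split_ifs <;> simp_all

lemma sw_braid {a b c : Fin (n + 1)} (h1 : a ≠ b) (h2 : a ≠ c) (h3 : b ≠ c)
    (f : PP n) : sw a b (sw b c (sw a b f)) = sw b c (sw a b (sw b c f)) := by
  simp only [sw_apply, rename_rename]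
  congr 2
  funext j
  simp only [Function.comp, swap_apply_def]
  split_ifs <;> simp_all

lemma swap_comp_rot_symm (a b : Fin (n + 1)) :
    (swap a b : Fin (n + 1) → Fin (n + 1)) ∘ rot.symm = rot.symm ∘ swap (rot a) (rot b) := by
  funext j
  simp only [Function.comp]
  apply rot.injective
  rw [rot_swap]
  simp

lemma sw_Phi {a b : Fin (n + 1)} (hab : adj a b) (hb : b ≠ Fin.last n) (f : PP n) :
    sw a b (Phi f) = Phi (sw (rot a) (rot b) f) := by
  have ha := hab.ne_last
  simp only [sw_apply, Phi, map_mul, rename_X, rename_rename, swap_comp_rot_symm,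
    swap_apply_of_ne_of_ne ha.symm hb.symm]

lemma sw_Phi_Phi {a : Fin (n + 1)} (hab : adj a (Fin.last n)) (f : PP n) :
    sw a (Fin.last n) (Phi (Phi f))
      = Phi (Phi (sw (rot (rot a)) (rot (rot (Fin.last n))) f)) := by
  have hra : rot.symm (Fin.last n) = a := by rw [symm_apply_eq, rot_of_adj hab]
  simp only [sw_apply, Phi, map_mul, rename_X, rename_rename, hra, swap_apply_left,
    swap_apply_right]
  have : (swap a (Fin.last n) : Fin (n + 1) → Fin (n + 1)) ∘ (rot.symm ∘ rot.symm)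
      = rot.symm ∘ (rot.symm ∘ swap (rot (rot a)) (rot (rot (Fin.last n)))) := by
    rw [← Function.comp_assoc, swap_comp_rot_symm, Function.comp_assoc, swap_comp_rot_symm]
  rw [this, ← Function.comp_assoc]
  ring

/-- rank difference -/
def dd (η : Fin (n + 1) → ℕ) (a b : Fin (n + 1)) : ℚ := (rk η a : ℚ) - (rk η b : ℚ)

lemma one_le_dd {η : Fin (n + 1) → ℕ} {a b : Fin (n + 1)} (h : η a < η b) : 1 ≤ dd η a b := by
  have := rk_lt_of_lt h
  unfold dd
  have h2 : ((rk η b + 1 : ℕ) : ℚ) ≤ (rk η a : ℚ) := by exact_mod_cast this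
  push_cast at h2
  linarith

/-- the operator `s + 1/d` -/
noncomputable def TT (a b : Fin (n + 1)) (d : ℚ) (f : PP n) : PP n := sw a b f + d⁻¹ • f

/-- the recursive description of the nonsymmetric Jack polynomials at parameter zero -/
inductive IsE : (Fin (n + 1) → ℕ) → PP n → Prop
  | zero : IsE (fun _ => 0) 1
  | phi {η : Fin (n + 1) → ℕ} {f : PP n} : IsE η f → IsE (shift η) (Phi f)
  | swp {η : Fin (n + 1) → ℕ} {f : PP n} {a b : Fin (n + 1)} :
      adj a b → η a < η b → IsE η f → IsE (η ∘ swap a b) (TT a b (dd η a b) f)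

lemma IsE.inv {η : Fin (n + 1) → ℕ} {f : PP n} (h : IsE η f) :
    (η = (fun _ => 0) ∧ f = 1) ∨ (∃ μ g, IsE μ g ∧ η = shift μ ∧ f = Phi g) ∨
      (∃ ν g a b, IsE ν g ∧ adj a b ∧ ν a < ν b ∧ η = ν ∘ swap a b ∧ f = TT a b (dd ν a b) g) := by
  cases h with
  | zero => exact Or.inl ⟨rfl, rfl⟩
  | phi h => exact Or.inr (Or.inl ⟨_, _, h, rfl, rfl⟩)
  | swp h1 h2 h3 => exact Or.inr (Or.inr ⟨_, _, _, _, h3, h1, h2, rfl, rfl⟩)

/-- induction on degree, then weight -/
lemma deg_wt_induction {P : (Fin (n + 1) → ℕ) → Prop}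
    (h : ∀ η, (∀ ν, deg ν < deg η → P ν) → (∀ ν, deg ν = deg η → wt ν < wt η → P ν) → P η)
    (η : Fin (n + 1) → ℕ) : P η := by
  have key : ∀ d w : ℕ, ∀ η : Fin (n + 1) → ℕ, deg η = d → wt η = w → P η := by
    intro d
    induction d using Nat.strong_induction_on with
    | _ d ihd =>
      intro w
      induction w using Nat.strong_induction_on with
      | _ w ihw =>
        intro η hd hw
        apply h
        · intro ν hν
          exact ihd (deg ν) (hd ▸ hν) _ ν rfl rfl
        · intro ν h1 h2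
          exact ihw (wt ν) (hw ▸ h2) ν (h1.trans hd) rfl
  exact key _ _ η rfl rfl

lemma exists_isE (η : Fin (n + 1) → ℕ) : ∃ f, IsE η f := by
  induction η using deg_wt_induction with
  | h η ih1 ih2 =>
    by_cases hd : ∃ a b, adj a b ∧ η b < η a
    · obtain ⟨a, b, hab, hlt⟩ := hd
      have h1 : (η ∘ swap a b) a < (η ∘ swap a b) b := by simpa using hlt
      have h2 := wt_lt hab h1
      rw [comp_swap_swap] at h2
      obtain ⟨f, hf⟩ := ih2 (η ∘ swap a b) (deg_comp _ _) h2
      have := IsE.swp hab h1 hf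
      rw [comp_swap_swap] at this
      exact ⟨_, this⟩
    · push Not at hd
      have hm := monotone_of_no_descent hd
      by_cases h0 : η (Fin.last n) = 0
      · have : η = fun _ => 0 := by
          funext i
          have := hm (Fin.le_last i)
          omega
        exact ⟨1, this ▸ IsE.zero⟩
      · obtain ⟨μ, rfl⟩ := exists_shift (η := η) (by omega)
        obtain ⟨f, hf⟩ := ih1 μ (by rw [deg_shift]; omega)
        exact ⟨_, hf.phi⟩

/-- the statement proved by induction -/
def Good (η : Fin (n + 1) → ℕ) : Prop :=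
  (∀ f g, IsE η f → IsE η g → f = g) ∧
    (∀ f a b, IsE η f → adj a b → η a = η b → sw a b f = f)

lemma TT_Phi {a b : Fin (n + 1)} (hab : adj a b) (hb : b ≠ Fin.last n) (d : ℚ) (f : PP n) :
    TT a b d (Phi f) = Phi (TT (rot a) (rot b) d f) := by
  simp only [TT, sw_Phi hab hb, Phi_add, Phi_smul]

lemma TT_Phi_Phi {a : Fin (n + 1)} (hab : adj a (Fin.last n)) (d : ℚ) (f : PP n) :
    TT a (Fin.last n) d (Phi (Phi f))
      = Phi (Phi (TT (rot (rot a)) (rot (rot (Fin.last n))) d f)) := by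
  simp only [TT, sw_Phi_Phi hab, Phi_add, Phi_smul]

lemma dd_shift (η : Fin (n + 1) → ℕ) (a b : Fin (n + 1)) :
    dd (shift η) a b = dd η (rot a) (rot b) := by
  simp only [dd, rk_shift]

lemma rot_last_ne {a : Fin (n + 1)} (hab : adj a (Fin.last n)) :
    rot (Fin.last n) ≠ Fin.last n := by
  unfold adj at hab
  simp only [Fin.val_last] at hab
  simp only [ne_eq, Fin.ext_iff, rot_val, Fin.val_last]
  split_ifs <;> omega

lemma shift_shift_vals (κ : Fin (n + 1) → ℕ) {a : Fin (n + 1)} (hab : adj a (Fin.last n)) :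
    shift (shift κ) a = κ (rot (rot a)) + 1 ∧
      shift (shift κ) (Fin.last n) = κ (rot (rot (Fin.last n))) + 1 := by
  have h1 := rot_of_adj hab
  have h2 := rot_last_ne hab
  have h3 := hab.ne_last
  constructor
  · rw [shift_of_ne _ h3, h1]; simp [shift]
  · simp [shift, h2]

/-- raising step against exchange step -/
lemma phi_swp {η μ ν : Fin (n + 1) → ℕ} {f g : PP n} {a b : Fin (n + 1)}
    (ih1 : ∀ ν : Fin (n + 1) → ℕ, deg ν < deg η → Good ν)
    (ih2 : ∀ ν : Fin (n + 1) → ℕ, deg ν = deg η → wt ν < wt η → Good ν)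
    (hf : IsE μ f) (hμ : η = shift μ) (hg : IsE ν g) (hab : adj a b) (hlt : ν a < ν b)
    (hν : η = ν ∘ swap a b) : Phi f = TT a b (dd ν a b) g := by
  have gν : Good ν := ih2 ν (by rw [hν, deg_comp]) (by rw [hν]; exact wt_lt hab hlt)
  have gμ : Good μ := ih1 μ (by rw [hμ, deg_shift]; omega)
  have ha := hab.ne_last
  have hl : 1 ≤ η (Fin.last n) := hμ ▸ shift_last μ
  by_cases hb : b = Fin.last n
  · subst hb
    have h1 : 1 ≤ ν a := by simpa [hν] using hl
    obtain ⟨ν1, rfl⟩ := exists_shift (η := ν) (by omega)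
    rw [shift_of_ne _ ha, rot_of_adj hab] at h1
    obtain ⟨ν2, rfl⟩ := exists_shift h1
    obtain ⟨h, hh⟩ := exists_isE ν2
    have hv := shift_shift_vals ν2 hab
    have hlt2 : ν2 (rot (rot a)) < ν2 (rot (rot (Fin.last n))) := by omega
    have e1 : μ = shift (ν2 ∘ swap (rot (rot a)) (rot (rot (Fin.last n)))) := by
      apply shift_injective
      rw [shift_shift_swap _ hab, ← hν, hμ]
    have e2 : g = Phi (Phi h) := gν.1 _ _ hg hh.phi.phi
    have e3 := gμ.1 _ _ hf (e1 ▸ (IsE.swp (adj_rot_rot hab) hlt2 hh).phi)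
    rw [e2, e3, TT_Phi_Phi hab, dd_shift, dd_shift]
  · have h1 : 1 ≤ ν (Fin.last n) := by
      simpa [hν, swap_apply_of_ne_of_ne ha.symm (Ne.symm hb)] using hl
    obtain ⟨κ, rfl⟩ := exists_shift h1
    obtain ⟨h, hh⟩ := exists_isE κ
    have hlt2 : κ (rot a) < κ (rot b) := by
      rwa [shift_of_ne _ ha, shift_of_ne _ hb] at hlt
    have e1 : μ = κ ∘ swap (rot a) (rot b) := by
      apply shift_injective
      rw [shift_swap _ hab hb, ← hν, hμ]
    have e2 : g = Phi h := gν.1 _ _ hg hh.phi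
    have e3 := gμ.1 _ _ hf (e1 ▸ IsE.swp (adj_rot hab hb) hlt2 hh)
    rw [e2, e3, TT_Phi hab hb, dd_shift]

lemma TT_comm {a b c d : Fin (n + 1)} (h1 : a ≠ c) (h2 : a ≠ d) (h3 : b ≠ c) (h4 : b ≠ d)
    (x y : ℚ) (f : PP n) : TT a b x (TT c d y f) = TT c d y (TT a b x f) := by
  simp only [TT, map_add, map_smul, sw_comm h1 h2 h3 h4]
  module

lemma dd_swap {η : Fin (n + 1) → ℕ} {a b : Fin (n + 1)} (hab : adj a b) (hne : η a ≠ η b)
    (i j : Fin (n + 1)) : dd (η ∘ swap a b) i j = dd η (swap a b i) (swap a b j) := by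
  simp only [dd, rk_swap hab hne]

lemma swap_id1 {α : Type*} [DecidableEq α] {a b c : α} (h1 : a ≠ b) (h2 : a ≠ c) (h3 : b ≠ c)
    (j : α) : swap a b j = swap a c (swap a b (swap b c j)) := by
  simp only [swap_apply_def]
  split_ifs <;> simp_all

lemma swap_id2 {α : Type*} [DecidableEq α] {a b c : α} (h1 : a ≠ b) (h2 : a ≠ c) (h3 : b ≠ c)
    (j : α) : swap b c j = swap a c (swap b c (swap a b j)) := by
  simp only [swap_apply_def]
  split_ifs <;> simp_all

lemma swap_id3 {α : Type*} [DecidableEq α] {a b c d : α} (h1 : a ≠ c) (h2 : a ≠ d) (h3 : b ≠ c)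
    (h4 : b ≠ d) (j : α) : swap c d j = swap a b (swap c d (swap a b j)) := by
  simp only [swap_apply_def]
  split_ifs <;> simp_all

/-- exchange step against exchange step -/
lemma swp_swp {η ν ν' : Fin (n + 1) → ℕ} {g g' : PP n} {a b a' b' : Fin (n + 1)}
    (ih2 : ∀ ν : Fin (n + 1) → ℕ, deg ν = deg η → wt ν < wt η → Good ν)
    (hg : IsE ν g) (hab : adj a b) (hlt : ν a < ν b) (hν : η = ν ∘ swap a b)
    (hg' : IsE ν' g') (hab' : adj a' b') (hlt' : ν' a' < ν' b') (hν' : η = ν' ∘ swap a' b')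
    (hle : a ≤ a') : TT a b (dd ν a b) g = TT a' b' (dd ν' a' b') g' := by
  have gν : Good ν := ih2 ν (by rw [hν, deg_comp]) (by rw [hν]; exact wt_lt hab hlt)
  have gν' : Good ν' := ih2 ν' (by rw [hν', deg_comp]) (by rw [hν']; exact wt_lt hab' hlt')
  have eν : ν = η ∘ swap a b := by rw [hν, comp_swap_swap]
  have eν' : ν' = η ∘ swap a' b' := by rw [hν', comp_swap_swap]
  have hη : η b < η a := by simpa [eν] using hlt
  have hη' : η b' < η a' := by simpa [eν'] using hlt'
  have hab0 := hab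
  have hab0' := hab'
  unfold adj at hab0 hab0'
  rw [Fin.le_def] at hle
  by_cases h1 : a = a'
  · subst h1
    have : b = b' := Fin.ext (by omega)
    subst this
    have : ν = ν' := by rw [eν, eν']
    subst this
    rw [gν.1 _ _ hg hg']
  by_cases h2 : b = a'
  · subst h2
    have n1 : a ≠ b := hab.ne
    have n2 : b ≠ b' := hab'.ne
    have n3 : a ≠ b' := by simp only [ne_eq, Fin.ext_iff]; omega
    set κ : Fin (n + 1) → ℕ := η ∘ swap a b' with hκ
    have ka : κ a = η b' := by simp [hκ]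
    have kb : κ b = η b := by simp [hκ, swap_apply_of_ne_of_ne n1.symm n2]
    have kc : κ b' = η a := by simp [hκ]
    obtain ⟨h, hh⟩ := exists_isE κ
    have s1 : swap a b b' = b' := swap_apply_of_ne_of_ne n3.symm n2.symm
    have s2 : swap b b' a = a := swap_apply_of_ne_of_ne n1 n3
    have l1 : κ a < κ b := by omega
    have l2 : (κ ∘ swap a b) b < (κ ∘ swap a b) b' := by simp [s1]; omega
    have l3 : κ b < κ b' := by omega
    have l4 : (κ ∘ swap b b') a < (κ ∘ swap b b') b := by simp [s2]; omega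
    have e1 : ν = (κ ∘ swap a b) ∘ swap b b' := by
      rw [eν, hκ]
      funext j
      exact congrArg η (swap_id1 n1 n3 n2 j)
    have e2 : ν' = (κ ∘ swap b b') ∘ swap a b := by
      rw [eν', hκ]
      funext j
      exact congrArg η (swap_id2 n1 n3 n2 j)
    have e3 := gν.1 _ _ hg (e1 ▸ IsE.swp hab' l2 (IsE.swp hab l1 hh))
    have e4 := gν'.1 _ _ hg' (e2 ▸ IsE.swp hab l4 (IsE.swp hab' l3 hh))
    have p1 := one_le_dd l1
    have p3 := one_le_dd l3
    have d1 : dd (κ ∘ swap a b) b b' = dd κ b b' + dd κ a b := by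
      rw [dd_swap hab l1.ne, swap_apply_right, s1]; simp only [dd]; ring
    have d2 : dd (κ ∘ swap b b') a b = dd κ b b' + dd κ a b := by
      rw [dd_swap hab' l3.ne, swap_apply_left, s2]; simp only [dd]; ring
    have d3 : dd ν a b = dd κ b b' := by
      rw [e1, dd_swap hab' l2.ne, dd_swap hab l1.ne, s2, swap_apply_left, swap_apply_left, s1]
    have d4 : dd ν' b b' = dd κ a b := by
      rw [e2, dd_swap hab l4.ne, dd_swap hab' l3.ne, s1, swap_apply_right, swap_apply_right, s2]
    rw [e3, e4, d1, d2, d3, d4]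
    exact yang_baxter (sw a b) (sw b b') (sw_sw _ _) (sw_sw _ _) (sw_braid n1 n3 n2) _ _
      (by linarith) (by linarith) (by linarith) h
  · have n1 : a ≠ b' := by simp only [ne_eq, Fin.ext_iff]; omega
    have n2 : b ≠ b' := by
      simp only [ne_eq, Fin.ext_iff] at h1 ⊢; omega
    have s1 : swap a b a' = a' := swap_apply_of_ne_of_ne (Ne.symm h1) (Ne.symm h2)
    have s2 : swap a b b' = b' := swap_apply_of_ne_of_ne n1.symm n2.symm
    have s3 : swap a' b' a = a := swap_apply_of_ne_of_ne h1 n1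
    have s4 : swap a' b' b = b := swap_apply_of_ne_of_ne h2 n2
    set κ : Fin (n + 1) → ℕ := ν ∘ swap a' b' with hκ
    obtain ⟨h, hh⟩ := exists_isE κ
    have l1 : κ a < κ b := by simpa [hκ, s3, s4] using hlt
    have l2 : κ a' < κ b' := by simpa [hκ, eν, s1, s2] using hη'
    have e1 : ν = κ ∘ swap a' b' := by rw [hκ, comp_swap_swap]
    have e2 : ν' = κ ∘ swap a b := by
      rw [eν', hκ, eν]
      funext j
      exact congrArg η (swap_id3 h1 n1 h2 n2 j)
    have e3 := gν.1 _ _ hg (e1 ▸ IsE.swp hab' l2 hh)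
    have e4 := gν'.1 _ _ hg' (e2 ▸ IsE.swp hab l1 hh)
    have d1 : dd ν a b = dd κ a b := by rw [e1, dd_swap hab' l2.ne, s3, s4]
    have d2 : dd ν' a' b' = dd κ a' b' := by rw [e2, dd_swap hab l1.ne, s1, s2]
    rw [e3, e4, d1, d2]
    exact TT_comm h1 n1 h2 n2 _ _ _

/-- invariance after an exchange step -/
lemma inv_swp {η ν : Fin (n + 1) → ℕ} {g : PP n} {a b a' b' : Fin (n + 1)}
    (ih2 : ∀ ν : Fin (n + 1) → ℕ, deg ν = deg η → wt ν < wt η → Good ν)
    (hg : IsE ν g) (hab' : adj a' b') (hlt : ν a' < ν b') (hν : η = ν ∘ swap a' b')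
    (hab : adj a b) (he : η a = η b) :
    sw a b (TT a' b' (dd ν a' b') g) = TT a' b' (dd ν a' b') g := by
  have wν : wt ν < wt η := by rw [hν]; exact wt_lt hab' hlt
  have dν : deg ν = deg η := by rw [hν, deg_comp]
  have gν : Good ν := ih2 ν dν wν
  have eν : ν = η ∘ swap a' b' := by rw [hν, comp_swap_swap]
  have hη : η b' < η a' := by simpa [eν] using hlt
  have hab0 := hab
  have hab0' := hab'
  unfold adj at hab0 hab0'
  have h1 : a ≠ a' := by
    rintro rfl
    have : b = b' := Fin.ext (by omega)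
    subst this
    omega
  have h1' : b ≠ b' := by simp only [ne_eq, Fin.ext_iff] at h1 ⊢; omega
  by_cases h2 : b' = a
  · subst h2
    have n1 : a' ≠ b := by simp only [ne_eq, Fin.ext_iff]; omega
    have s1 : swap a' b' b = b := swap_apply_of_ne_of_ne n1.symm h1'
    have s2 : swap b' b a' = a' := swap_apply_of_ne_of_ne h1.symm n1
    set κ : Fin (n + 1) → ℕ := ν ∘ swap b' b with hκ
    have l1 : κ b' < κ b := by simp [hκ, eν, s1]; omega
    have q1 : κ a' = κ b' := by simp [hκ, eν, s1, s2]; omega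
    have e1 : ν = κ ∘ swap b' b := by rw [hκ, comp_swap_swap]
    have gκ : Good κ := ih2 κ (by rw [← dν, hκ, deg_comp])
      (lt_trans (by rw [e1]; exact wt_lt hab l1) wν)
    obtain ⟨h, hh⟩ := exists_isE κ
    have e3 := gν.1 _ _ hg (e1 ▸ IsE.swp hab l1 hh)
    have e4 := gκ.2 _ _ _ hh hab' q1
    have r1 := rk_eq_succ hab' q1
    have d1 : dd ν a' b' = dd κ b' b - 1 := by
      rw [e1, dd_swap hab l1.ne, s2, swap_apply_left]
      simp only [dd, r1]; push_cast; ring
    have p1 := one_le_dd l1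
    have p2 := one_le_dd hlt
    rw [d1] at p2
    rw [e3, d1]
    exact yb_invariant (sw a' b') (sw b' b) (sw_sw _ _) (sw_braid hab'.ne n1 hab.ne) _
      (by linarith) (by linarith) h e4
  by_cases h3 : b = a'
  · subst h3
    have n1 : a ≠ b' := Ne.symm h2
    have s1 : swap b b' a = a := swap_apply_of_ne_of_ne h1 n1
    have s2 : swap a b b' = b' := swap_apply_of_ne_of_ne n1.symm h1'.symm
    set κ : Fin (n + 1) → ℕ := ν ∘ swap a b with hκ
    have l1 : κ a < κ b := by simp [hκ, eν, s1]; omega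
    have q1 : κ b = κ b' := by simp [hκ, eν, s1, s2]; omega
    have e1 : ν = κ ∘ swap a b := by rw [hκ, comp_swap_swap]
    have gκ : Good κ := ih2 κ (by rw [← dν, hκ, deg_comp])
      (lt_trans (by rw [e1]; exact wt_lt hab l1) wν)
    obtain ⟨h, hh⟩ := exists_isE κ
    have e3 := gν.1 _ _ hg (e1 ▸ IsE.swp hab l1 hh)
    have e4 := gκ.2 _ _ _ hh hab' q1
    have r1 := rk_eq_succ hab' q1
    have d1 : dd ν b b' = dd κ a b - 1 := by
      rw [e1, dd_swap hab l1.ne, s2, swap_apply_right]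
      simp only [dd, r1]; push_cast; ring
    have p1 := one_le_dd l1
    have p2 := one_le_dd hlt
    rw [d1] at p2
    rw [e3, d1]
    exact yb_invariant (sw b b') (sw a b) (sw_sw _ _)
      (fun v => (sw_braid hab.ne n1 hab'.ne v).symm) _ (by linarith) (by linarith) h e4
  · have s1 : swap a' b' a = a := swap_apply_of_ne_of_ne h1 (Ne.symm h2)
    have s2 : swap a' b' b = b := swap_apply_of_ne_of_ne h3 h1'
    have q1 : ν a = ν b := by simpa [eν, s1, s2] using he
    have e4 := gν.2 _ _ _ hg hab q1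
    simp only [TT, map_add, map_smul, sw_comm h1 (Ne.symm h2) h3 h1', e4]

lemma good (η : Fin (n + 1) → ℕ) : Good η := by
  induction η using deg_wt_induction with
  | h η ih1 ih2 =>
    constructor
    · intro f g hf hg
      rcases hf.inv with ⟨h0, rfl⟩ | ⟨μ, f', hf', hμ, rfl⟩ | ⟨ν, f', a, b, hf', hab, hlt, hν, rfl⟩
      · rcases hg.inv with ⟨-, rfl⟩ | ⟨μ, g', -, hμ, rfl⟩ | ⟨ν, g', a, b, -, hab, hlt, hν, rfl⟩
        · rfl
        · have := shift_last μ
          rw [← hμ, h0] at this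
          simp at this
        · have := congrFun hν a
          rw [h0] at this
          simp at this
          omega
      · rcases hg.inv with ⟨h0, rfl⟩ | ⟨μ', g', hg', hμ', rfl⟩ | ⟨ν, g', a, b, hg', hab, hlt, hν, rfl⟩
        · have := shift_last μ
          rw [← hμ, h0] at this
          simp at this
        · have : μ = μ' := shift_injective (hμ.symm.trans hμ')
          subst this
          rw [(ih1 μ (by rw [hμ, deg_shift]; omega)).1 _ _ hf' hg']
        · exact phi_swp ih1 ih2 hf' hμ hg' hab hlt hν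
      · rcases hg.inv with ⟨h0, rfl⟩ | ⟨μ', g', hg', hμ', rfl⟩ |
          ⟨ν', g', a', b', hg', hab', hlt', hν', rfl⟩
        · have := congrFun hν a
          rw [h0] at this
          simp at this
          omega
        · exact (phi_swp ih1 ih2 hg' hμ' hf' hab hlt hν).symm
        · rcases le_total a a' with hle | hle
          · exact swp_swp ih2 hf' hab hlt hν hg' hab' hlt' hν' hle
          · exact (swp_swp ih2 hg' hab' hlt' hν' hf' hab hlt hν hle).symm
    · intro f a b hf hab he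
      rcases hf.inv with ⟨h0, rfl⟩ | ⟨μ, f', hf', hμ, rfl⟩ |
        ⟨ν, f', a', b', hf', hab', hlt, hν, rfl⟩
      · simp [sw_apply]
      · have gμ := ih1 μ (by rw [hμ, deg_shift]; omega)
        have ha := hab.ne_last
        by_cases hb : b = Fin.last n
        · subst hb
          have h1 : 1 ≤ μ (Fin.last n) := by
            have := shift_last μ
            rw [← hμ, ← he, hμ, shift_of_ne _ ha, rot_of_adj hab] at this
            exact this
          obtain ⟨κ, rfl⟩ := exists_shift h1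
          obtain ⟨h, hh⟩ := exists_isE κ
          have gκ := ih1 κ (by rw [hμ, deg_shift, deg_shift]; omega)
          have hv := shift_shift_vals κ hab
          rw [hμ] at he
          rw [gμ.1 _ _ hf' hh.phi, sw_Phi_Phi hab, gκ.2 _ _ _ hh (adj_rot_rot hab) (by omega)]
        · rw [hμ, shift_of_ne _ ha, shift_of_ne _ hb] at he
          rw [sw_Phi hab hb, gμ.2 _ _ _ hf' (adj_rot hab hb) he]
      · exact inv_swp ih2 hf' hab' hlt hν hab he

/-- nonsymmetric Jack polynomial at parameter zero -/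
noncomputable def EE (η : Fin (n + 1) → ℕ) : PP n := (exists_isE η).choose

lemma isE_EE (η : Fin (n + 1) → ℕ) : IsE η (EE η) := (exists_isE η).choose_spec

lemma IsE.eq {η : Fin (n + 1) → ℕ} {f : PP n} (h : IsE η f) : EE η = f :=
  (good η).1 _ _ (isE_EE η) h

lemma EE_zero : EE (fun _ : Fin (n + 1) => 0) = 1 := IsE.zero.eq

lemma EE_shift (η : Fin (n + 1) → ℕ) : EE (shift η) = Phi (EE η) := (isE_EE η).phi.eq

lemma EE_swap {η : Fin (n + 1) → ℕ} {a b : Fin (n + 1)} (hab : adj a b) (h : η a < η b) :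
    EE (η ∘ swap a b) = sw a b (EE η) + (dd η a b)⁻¹ • EE η :=
  (IsE.swp hab h (isE_EE η)).eq

lemma sw_EE {η : Fin (n + 1) → ℕ} {a b : Fin (n + 1)} (hab : adj a b) (h : η a = η b) :
    sw a b (EE η) = EE η := (good η).2 _ _ _ (isE_EE η) hab h

end Pool.Agent.MP_8b86ce_co.H45
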