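import Mathlib

set_option autoImplicit false

namespace Pool.Agent.MP_8b86ce_co.H45

open Equiv Finset

variable {N : ℕ}

/-- position `k` ranks above position `i` -/
def above (η : Fin N → ℕ) (k i : Fin N) : Prop := η i < η k ∨ (η k = η i ∧ k < i)

instance (η : Fin N → ℕ) (k i : Fin N) : Decidable (above η k i) := by
  unfold above; infer_instance

/-- rank of a position: number of positions ranking above it -/
def rk (η : Fin N → ℕ) (i : Fin N) : ℕ := (univ.filter fun k => above η k i).card

/-- adjacency of two positions -/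
def adj (a b : Fin N) : Prop := (b : ℕ) = a + 1

lemma adj.ne {a b : Fin N} (h : adj a b) : a ≠ b := by
  intro e; subst e; unfold adj at h; omega

lemma adj.lt {a b : Fin N} (h : adj a b) : a < b := by
  unfold adj at h; rw [Fin.lt_def]; omega

lemma swap_val {a b : Fin N} (j : Fin N) :
    ((swap a b j : Fin N) : ℕ) = if (j : ℕ) = a then (b : ℕ) else if (j : ℕ) = b then (a : ℕ) else j := by
  rw [swap_apply_def]
  simp only [Fin.ext_iff]
  split_ifs <;> rfl

lemma above_trans {η : Fin N → ℕ} {i j k : Fin N} (h1 : above η i j) (h2 : above η j k) :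
    above η i k := by
  unfold above at *
  simp only [Fin.lt_def] at *
  omega

lemma above_irrefl {η : Fin N → ℕ} {i : Fin N} : ¬ above η i i := by
  unfold above; simp

lemma above_total {η : Fin N → ℕ} (i j : Fin N) : above η i j ∨ i = j ∨ above η j i := by
  unfold above
  simp only [Fin.lt_def, Fin.ext_iff]
  omega

lemma rk_lt_of_above {η : Fin N → ℕ} {k i : Fin N} (h : above η k i) : rk η k < rk η i := by
  unfold rk
  apply card_lt_card
  rw [ssubset_iff_of_subset]
  · exact ⟨k, by simp [h], by simp [above_irrefl]⟩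
  · intro j hj
    simp only [mem_filter, mem_univ, true_and] at hj ⊢
    exact above_trans hj h

lemma above_iff_rk_lt {η : Fin N → ℕ} {k i : Fin N} : above η k i ↔ rk η k < rk η i := by
  refine ⟨rk_lt_of_above, fun h => ?_⟩
  rcases above_total (η := η) k i with h1 | h1 | h1
  · exact h1
  · subst h1; omega
  · have := rk_lt_of_above h1; omega

lemma rk_lt_of_lt {η : Fin N → ℕ} {k i : Fin N} (h : η i < η k) : rk η k < rk η i :=
  rk_lt_of_above (Or.inl h)

/-- ranks are transported along a bijection that transports `above` -/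
lemma rk_congr {η ν : Fin N → ℕ} (e : Perm (Fin N))
    (h : ∀ k j, above ν k j ↔ above η (e k) (e j)) (j : Fin N) : rk ν j = rk η (e j) := by
  unfold rk
  apply card_bij (fun k _ => e k)
  · intro k hk
    simp only [mem_filter, mem_univ, true_and] at hk ⊢
    exact (h k j).1 hk
  · intro k _ k' _ hkk'
    exact e.injective hkk'
  · intro k hk
    simp only [mem_filter, mem_univ, true_and] at hk
    refine ⟨e.symm k, ?_, by simp⟩
    simp only [mem_filter, mem_univ, true_and]
    rw [h]; simpa using hk

lemma swap_lt_iff {a b k j : Fin N} (hab : adj a b) (h1 : ¬ (k = a ∧ j = b))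
    (h2 : ¬ (k = b ∧ j = a)) : swap a b k < swap a b j ↔ k < j := by
  unfold adj at hab
  simp only [Fin.lt_def, swap_val, Fin.ext_iff] at *
  split_ifs <;> omega

lemma rk_swap {η : Fin N → ℕ} {a b : Fin N} (hab : adj a b) (hne : η a ≠ η b) (j : Fin N) :
    rk (η ∘ swap a b) j = rk η (swap a b j) := by
  apply rk_congr
  intro k j
  unfold above
  simp only [Function.comp]
  by_cases h1 : k = a ∧ j = b
  · obtain ⟨rfl, rfl⟩ := h1
    simp only [swap_apply_left, swap_apply_right]
    constructor <;> rintro (h | h) <;> first | exact Or.inl h | exact absurd h.1.symm hne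
  by_cases h2 : k = b ∧ j = a
  · obtain ⟨rfl, rfl⟩ := h2
    simp only [swap_apply_left, swap_apply_right]
    constructor <;> rintro (h | h) <;> first | exact Or.inl h | exact absurd h.1 hne
  rw [swap_lt_iff hab h1 h2]

lemma rk_eq_succ {η : Fin N → ℕ} {a b : Fin N} (hab : adj a b) (he : η a = η b) :
    rk η b = rk η a + 1 := by
  unfold rk
  have : (univ.filter fun k => above η k b) = insert a (univ.filter fun k => above η k a) := by
    ext k
    unfold adj at hab
    simp only [mem_filter, mem_univ, true_and, mem_insert, above, Fin.lt_def, Fin.ext_iff]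
    by_cases hk : (k : ℕ) = a
    · have : k = a := Fin.ext hk
      subst this
      omega
    · omega
  rw [this, card_insert_of_notMem]
  simp [above_irrefl]

lemma rk_antitone {η : Fin N → ℕ} (h : Antitone η) (i : Fin N) : rk η i = i := by
  unfold rk
  have : (univ.filter fun k => above η k i) = Iio i := by
    ext k
    rw [mem_filter, mem_Iio]
    simp only [mem_univ, true_and]
    unfold above
    constructor
    · rintro (h1 | h1)
      · by_contra hc
        have := h (not_lt.1 hc)
        omega
      · exact h1.2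
    · intro hk
      have := h hk.le
      rcases Nat.lt_or_ge (η i) (η k) with h2 | h2
      · exact Or.inl h2
      · exact Or.inr ⟨by omega, hk⟩
  rw [this, Fin.card_Iio]

/-- add one at the positions of rank below `m` -/
def bump (m : ℕ) (η : Fin N → ℕ) : Fin N → ℕ := fun i => η i + if rk η i < m then 1 else 0

lemma above_bump (m : ℕ) (η : Fin N → ℕ) (k j : Fin N) : above (bump m η) k j ↔ above η k j := by
  have key : ∀ k j, above η k j → above (bump m η) k j := by
    intro k j h
    have h1 := rk_lt_of_above h
    unfold above bump at *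
    split_ifs <;> omega
  refine ⟨fun h => ?_, key k j⟩
  rcases above_total (η := η) k j with h1 | h1 | h1
  · exact h1
  · subst h1; exact absurd h above_irrefl
  · exact absurd (above_trans h (key _ _ h1)) above_irrefl

lemma rk_bump (m : ℕ) (η : Fin N → ℕ) (j : Fin N) : rk (bump m η) j = rk η j :=
  rk_congr (η := η) (ν := bump m η) 1 (fun k j => above_bump m η k j) j

lemma bump_swap (m : ℕ) {η : Fin N → ℕ} {a b : Fin N} (hab : adj a b) (hne : η a ≠ η b) :
    bump m (η ∘ swap a b) = bump m η ∘ swap a b := by
  funext j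
  simp only [bump, Function.comp, rk_swap hab hne]

lemma bump_lt (m : ℕ) {η : Fin N → ℕ} {a b : Fin N} (h : η a < η b) :
    bump m η a < bump m η b := by
  have := rk_lt_of_lt h
  unfold bump
  split_ifs <;> omega

/-- total degree -/
def deg (η : Fin N → ℕ) : ℕ := ∑ i, η i

/-- weight that drops when a descent is removed -/
def wt (η : Fin N → ℕ) : ℕ := ∑ i : Fin N, (N - (i : ℕ)) * η i

lemma deg_comp (η : Fin N → ℕ) (σ : Perm (Fin N)) : deg (η ∘ σ) = deg η := by
  unfold deg
  exact Equiv.sum_comp σ η

lemma wt_lt {η : Fin N → ℕ} {a b : Fin N} (hab : adj a b) (h : η a < η b) :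
    wt η < wt (η ∘ swap a b) := by
  unfold wt
  have hne := hab.ne
  have e1 : ∀ g : Fin N → ℕ, ∑ i, g i = g a + g b + ∑ i ∈ (univ.erase a).erase b, g i := by
    intro g
    rw [← Finset.add_sum_erase _ _ (mem_univ a), ← Finset.add_sum_erase (univ.erase a) _
      (a := b) (by simp [hne.symm]), add_assoc]
  rw [e1, e1 (fun i => (N - (i : ℕ)) * (η ∘ swap a b) i)]
  have e2 : ∑ i ∈ (univ.erase a).erase b, (N - (i : ℕ)) * (η ∘ swap a b) i
      = ∑ i ∈ (univ.erase a).erase b, (N - (i : ℕ)) * η i := by
    apply sum_congr rfl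
    intro i hi
    simp only [mem_erase] at hi
    simp only [Function.comp, swap_apply_of_ne_of_ne hi.2.1 hi.1]
  rw [e2]
  simp only [Function.comp, swap_apply_left, swap_apply_right]
  unfold adj at hab
  have hb := b.2
  obtain ⟨t, ht⟩ : ∃ t, N - (a : ℕ) = t + 1 := ⟨N - (a : ℕ) - 1, by omega⟩
  have ht' : N - (b : ℕ) = t := by omega
  rw [ht, ht']
  nlinarith

lemma monotone_of_no_descent {η : Fin N → ℕ} (h : ∀ a b, adj a b → η a ≤ η b) : Monotone η := by
  cases N with
  | zero => intro a; exact a.elim0
  | succ n =>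
    rw [Fin.monotone_iff_le_succ]
    intro i
    exact h _ _ (by simp [adj])

lemma comp_swap_swap (η : Fin N → ℕ) (a b : Fin N) : (η ∘ swap a b) ∘ swap a b = η := by
  funext j; simp

section Shift

variable {n : ℕ}

/-- the rotation `i ↦ i + 1` -/
def rot : Perm (Fin (n + 1)) := finRotate (n + 1)

lemma rot_val (i : Fin (n + 1)) : ((rot i : Fin (n + 1)) : ℕ) = if (i : ℕ) = n then 0 else (i : ℕ) + 1 := by
  unfold rot
  rw [coe_finRotate]
  simp only [Fin.ext_iff, Fin.val_last]

/-- the affine shift of a composition -/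
def shift (η : Fin (n + 1) → ℕ) : Fin (n + 1) → ℕ :=
  fun i => η (rot i) + if i = Fin.last n then 1 else 0

lemma shift_injective : Function.Injective (shift (n := n)) := by
  intro η ν h
  funext j
  have := congrFun h (rot.symm j)
  simpa [shift] using this

lemma exists_shift {η : Fin (n + 1) → ℕ} (h : 1 ≤ η (Fin.last n)) : ∃ μ, η = shift μ := by
  refine ⟨fun j => η (rot.symm j) - if rot.symm j = Fin.last n then 1 else 0, ?_⟩
  funext i
  simp only [shift, symm_apply_apply]
  split_ifs with hi
  · subst hi; omega
  · omega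

lemma deg_shift (η : Fin (n + 1) → ℕ) : deg (shift η) = deg η + 1 := by
  unfold deg shift
  rw [sum_add_distrib, Equiv.sum_comp rot η]
  simp

lemma shift_last (η : Fin (n + 1) → ℕ) : 1 ≤ shift η (Fin.last n) := by
  simp [shift]

lemma shift_of_ne (η : Fin (n + 1) → ℕ) {i : Fin (n + 1)} (h : i ≠ Fin.last n) :
    shift η i = η (rot i) := by
  simp [shift, h]

lemma rk_shift (η : Fin (n + 1) → ℕ) (j : Fin (n + 1)) : rk (shift η) j = rk η (rot j) := by
  apply rk_congr
  intro k j
  have hk := k.2
  have hj := j.2
  unfold above shift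
  simp only [Fin.lt_def, rot_val, Fin.ext_iff, Fin.val_last]
  split_ifs <;> omega

lemma bump_shift (m : ℕ) (η : Fin (n + 1) → ℕ) : bump m (shift η) = shift (bump m η) := by
  funext j
  simp only [bump, rk_shift, shift]
  omega

lemma adj_rot {a b : Fin (n + 1)} (hab : adj a b) (hb : b ≠ Fin.last n) : adj (rot a) (rot b) := by
  have := b.2
  unfold adj at *
  simp only [ne_eq, Fin.ext_iff, Fin.val_last] at hb
  simp only [rot_val]
  split_ifs <;> omega

lemma adj_rot_rot {a : Fin (n + 1)} (hab : adj a (Fin.last n)) :
    adj (rot (rot a)) (rot (rot (Fin.last n))) := by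
  unfold adj at *
  simp only [Fin.val_last] at hab
  simp only [rot_val, Fin.val_last]
  split_ifs <;> omega

lemma rot_of_adj {a b : Fin (n + 1)} (hab : adj a b) : rot a = b := by
  have := b.2
  unfold adj at hab
  apply Fin.ext
  rw [rot_val]
  split_ifs <;> omega

lemma adj.ne_last {a b : Fin (n + 1)} (hab : adj a b) : a ≠ Fin.last n := by
  have := b.2
  unfold adj at hab
  simp only [ne_eq, Fin.ext_iff, Fin.val_last]
  omega

lemma rot_swap (a b j : Fin (n + 1)) : rot (swap a b j) = swap (rot a) (rot b) (rot j) :=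
  (rot.injective.swap_apply a b j).symm

lemma shift_swap (κ : Fin (n + 1) → ℕ) {a b : Fin (n + 1)} (hab : adj a b) (hb : b ≠ Fin.last n) :
    shift (κ ∘ swap (rot a) (rot b)) = shift κ ∘ swap a b := by
  funext j
  have ha := hab.ne_last
  simp only [shift, Function.comp, rot_swap]
  congr 1
  have : swap a b j = Fin.last n ↔ j = Fin.last n := by
    rw [swap_apply_eq_iff, swap_apply_of_ne_of_ne ha.symm hb.symm]
  simp only [this]

lemma shift_shift_swap (κ : Fin (n + 1) → ℕ) {a : Fin (n + 1)} (hab : adj a (Fin.last n)) :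
    shift (shift (κ ∘ swap (rot (rot a)) (rot (rot (Fin.last n)))))
      = shift (shift κ) ∘ swap a (Fin.last n) := by
  funext j
  have hra := rot_of_adj hab
  simp only [shift, Function.comp, rot_swap]
  have h1 : swap (rot a) (rot (Fin.last n)) (rot j) = Fin.last n ↔ j = Fin.last n := by
    rw [← rot_swap, ← hra, rot.injective.eq_iff, swap_apply_eq_iff, swap_apply_left, hra]
  have h2 : swap a (Fin.last n) j = Fin.last n ↔ rot j = Fin.last n := by
    rw [swap_apply_eq_iff, swap_apply_right, ← hra, rot.injective.eq_iff]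
  simp only [h1, h2]
  omega

end Shift

end Pool.Agent.MP_8b86ce_co.H45
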